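import Pool.Agent.Helper93_ABCT.Defs

/-!
# The ABCT variety (MP_a17fcb_ag)
-/

open MvPolynomial Topology

namespace PosGeom

/-- the index set of the Plücker coordinates of `Gr(k,n)` -/
abbrev PIdx (k n : ℕ) : Type := {I : Finset (Fin n) // I.card = k}

/-- the vector of maximal minors of a `k × n` matrix -/
noncomputable def plucker {k n : ℕ} {R : Type} [CommRing R] (A : Matrix (Fin k) (Fin n) R)
    (I : PIdx k n) : R :=
  (A.submatrix id (I.1.orderEmbOfFin I.2)).det

/-- the Veronese map: the `k × n` matrix with columns `(a_j^{k-1}, a_j^{k-2} b_j, ..., b_j^{k-1})` -/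
def veronese (k n : ℕ) {R : Type} [CommRing R] (a b : Fin n → R) : Matrix (Fin k) (Fin n) R :=
  Matrix.of fun i j => a j ^ (k - 1 - (i : ℕ)) * b j ^ (i : ℕ)

/-- the ideal of all polynomials in the Plücker coordinates vanishing on the image of the Veronese
map -/
def abctIdeal (k n : ℕ) : Ideal (MvPolynomial (PIdx k n) ℂ) where
  carrier := {F | ∀ a b : Fin n → ℂ, aeval (plucker (veronese k n a b)) F = 0}
  add_mem' := by
    intro F G hF hG a b
    rw [map_add, hF a b, hG a b, add_zero]
  zero_mem' := by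
    intro a b
    exact map_zero _
  smul_mem' := by
    intro c F hF a b
    rw [smul_eq_mul, map_mul, hF a b, mul_zero]

theorem mem_abctIdeal {k n : ℕ} {F : MvPolynomial (PIdx k n) ℂ} :
    F ∈ abctIdeal k n ↔ ∀ a b : Fin n → ℂ, aeval (plucker (veronese k n a b)) F = 0 := Iff.rfl

/-- the generic Plücker vector -/
noncomputable def genPl (k n : ℕ) : MvPolynomial (PIdx k n) ℂ →ₐ[ℂ] MvPolynomial (Fin n ⊕ Fin n) ℂ :=
  aeval (plucker (veronese k n (fun j => X (Sum.inl j)) (fun j => X (Sum.inr j))))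

theorem map_plucker {k n : ℕ} {R S : Type} [CommRing R] [CommRing S] (f : R →+* S)
    (A : Matrix (Fin k) (Fin n) R) (I : PIdx k n) :
    f (plucker A I) = plucker (A.map f) I := by
  unfold plucker
  rw [RingHom.map_det]
  rfl

theorem map_veronese {k n : ℕ} {R S : Type} [CommRing R] [CommRing S] (f : R →+* S)
    (a b : Fin n → R) : (veronese k n a b).map f = veronese k n (f ∘ a) (f ∘ b) := by
  ext i j
  simp [veronese]

theorem eval_genPl {k n : ℕ} (F : MvPolynomial (PIdx k n) ℂ) (a b : Fin n → ℂ) :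
    aeval (Sum.elim a b) (genPl k n F) = aeval (plucker (veronese k n a b)) F := by
  unfold genPl
  have h : ∀ I, aeval (Sum.elim a b) (plucker (veronese k n (fun j => (X (Sum.inl j) :
      MvPolynomial (Fin n ⊕ Fin n) ℂ)) (fun j => X (Sum.inr j))) I) =
      plucker (veronese k n a b) I := by
    intro I
    have h1 := map_plucker ((aeval (Sum.elim a b) : MvPolynomial (Fin n ⊕ Fin n) ℂ →ₐ[ℂ] ℂ) :
      MvPolynomial (Fin n ⊕ Fin n) ℂ →+* ℂ) (veronese k n (fun j => (X (Sum.inl j) :
      MvPolynomial (Fin n ⊕ Fin n) ℂ)) (fun j => X (Sum.inr j))) I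
    rw [map_veronese] at h1
    have h2 : ((aeval (Sum.elim a b) : MvPolynomial (Fin n ⊕ Fin n) ℂ →ₐ[ℂ] ℂ) :
      MvPolynomial (Fin n ⊕ Fin n) ℂ →+* ℂ) ∘ (fun j : Fin n => (X (Sum.inl j) :
      MvPolynomial (Fin n ⊕ Fin n) ℂ)) = a := by
      funext j; simp
    have h3 : ((aeval (Sum.elim a b) : MvPolynomial (Fin n ⊕ Fin n) ℂ →ₐ[ℂ] ℂ) :
      MvPolynomial (Fin n ⊕ Fin n) ℂ →+* ℂ) ∘ (fun j : Fin n => (X (Sum.inr j) :
      MvPolynomial (Fin n ⊕ Fin n) ℂ)) = b := by
      funext j; simp
    rw [h2, h3] at h1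
    exact h1
  rw [← AlgHom.comp_apply, comp_aeval]
  congr 2
  funext I
  exact h I

theorem mem_abctIdeal_iff {k n : ℕ} {F : MvPolynomial (PIdx k n) ℂ} :
    F ∈ abctIdeal k n ↔ genPl k n F = 0 := by
  constructor
  · intro h
    apply MvPolynomial.funext
    intro x
    have h1 := h (x ∘ Sum.inl) (x ∘ Sum.inr)
    rw [← eval_genPl, Sum.elim_comp_inl_inr, aeval_eq_eval] at h1
    rw [map_zero]
    exact h1
  · intro h a b
    rw [← eval_genPl, h, map_zero]

theorem plucker_scale {k n : ℕ} (a b : Fin n → ℂ) (s : ℂ) (I : PIdx k n) :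
    plucker (veronese k n (s • a) (s • b)) I =
      s ^ ((k - 1) * k) * plucker (veronese k n a b) I := by
  unfold plucker
  have h : (veronese k n (s • a) (s • b)).submatrix id (I.1.orderEmbOfFin I.2) =
      s ^ (k - 1) • ((veronese k n a b).submatrix id (I.1.orderEmbOfFin I.2)) := by
    ext i j
    simp only [veronese, Matrix.submatrix_apply, Matrix.of_apply, Matrix.smul_apply, Pi.smul_apply,
      smul_eq_mul, id_eq]
    have hi : k - 1 - (i : ℕ) + (i : ℕ) = k - 1 := by have := i.2; omega
    rw [mul_pow, mul_pow]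
    calc _ = (s ^ (k - 1 - (i : ℕ)) * s ^ (i : ℕ)) *
          (a (I.1.orderEmbOfFin I.2 j) ^ (k - 1 - (i : ℕ)) *
            b (I.1.orderEmbOfFin I.2 j) ^ (i : ℕ)) := by ring
      _ = _ := by rw [← pow_add, hi]
  rw [h, Matrix.det_smul, Fintype.card_fin, ← pow_mul]

theorem aeval_scale {σ : Type} (F : MvPolynomial σ ℂ) (z : σ → ℂ) (t : ℂ) (N : ℕ)
    (hN : F.totalDegree < N) :
    aeval (fun i => t * z i) F = ∑ m ∈ Finset.range N, t ^ m * aeval z (homogeneousComponent m F) := by
  classical
  have hsum : F = ∑ m ∈ Finset.range N, homogeneousComponent m F := by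
    conv_lhs => rw [← sum_homogeneousComponent F]
    apply Finset.sum_subset
    · intro m hm
      rw [Finset.mem_range] at hm ⊢
      omega
    · intro m _ hm
      rw [Finset.mem_range, not_lt] at hm
      exact homogeneousComponent_eq_zero _ _ (by omega)
  conv_lhs => rw [hsum]
  rw [map_sum]
  refine Finset.sum_congr rfl fun m _ => ?_
  have hG := homogeneousComponent_isHomogeneous m F
  rw [aeval_def, eval₂_eq, aeval_def, eval₂_eq, Finset.mul_sum]
  refine Finset.sum_congr rfl fun μ hμ => ?_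
  have hm : ∑ i ∈ μ.support, μ i = m := by
    have := hG (mem_support_iff.mp hμ)
    rw [Finsupp.weight_apply, Finsupp.sum] at this
    simpa using this
  have h2 : (∏ i ∈ μ.support, (t * z i) ^ μ i) = t ^ m * ∏ i ∈ μ.support, z i ^ μ i := by
    rw [← hm, ← Finset.prod_pow_eq_pow_sum, ← Finset.prod_mul_distrib]
    exact Finset.prod_congr rfl fun i _ => mul_pow _ _ _
  rw [h2]
  ring

/-- the ABCT variety `V(k,n)`, the Zariski closure of the image of the Veronese map. -/
def ABCT (k n : ℕ) (hk : 2 ≤ k) (hkn : k ≤ n) : PVar (PIdx k n) where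
  I := abctIdeal k n
  prime := by
    refine ⟨?_, ?_⟩
    · rw [Ideal.ne_top_iff_one, mem_abctIdeal_iff, map_one]
      exact one_ne_zero
    · intro F G h
      rw [mem_abctIdeal_iff, map_mul, mul_eq_zero] at h
      rcases h with h | h
      · exact Or.inl (mem_abctIdeal_iff.mpr h)
      · exact Or.inr (mem_abctIdeal_iff.mpr h)
  homog := by
    intro F hF m a b
    have hkk : 0 < (k - 1) * k := Nat.mul_pos (by omega) (by omega)
    have hexp : ∀ s : ℂ, ∑ i ∈ Finset.range (F.totalDegree + 1),
        (s ^ ((k - 1) * k)) ^ i * aeval (plucker (veronese k n a b)) (homogeneousComponent i F) = 0 := by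
      intro s
      rw [← aeval_scale F _ _ _ (Nat.lt_succ_self _)]
      have h1 := hF (s • a) (s • b)
      rw [← h1]
      congr 2
      funext I
      exact (plucker_scale a b s I).symm
    let p : Polynomial ℂ := ∑ i ∈ Finset.range (F.totalDegree + 1),
      Polynomial.C (aeval (plucker (veronese k n a b)) (homogeneousComponent i F)) *
        Polynomial.X ^ i
    have hp : p = 0 := by
      apply Polynomial.funext
      intro t
      obtain ⟨s, hs⟩ := IsAlgClosed.exists_pow_nat_eq t hkk
      rw [Polynomial.eval_zero, ← hexp s, Polynomial.eval_finsetSum]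
      refine Finset.sum_congr rfl fun i _ => ?_
      rw [Polynomial.eval_mul, Polynomial.eval_C, Polynomial.eval_pow, Polynomial.eval_X, hs]
      ring
    by_cases hm : m ∈ Finset.range (F.totalDegree + 1)
    · have h2 : p.coeff m = 0 := by rw [hp, Polynomial.coeff_zero]
      rw [Polynomial.finsetSum_coeff, Finset.sum_eq_single m] at h2
      · rwa [Polynomial.coeff_C_mul, Polynomial.coeff_X_pow, if_pos rfl, mul_one] at h2
      · intro i _ him
        rw [Polynomial.coeff_C_mul, Polynomial.coeff_X_pow, if_neg (Ne.symm him), mul_zero]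
      · intro h; exact absurd hm h
    · rw [Finset.mem_range, not_lt] at hm
      rw [homogeneousComponent_eq_zero _ _ (by omega), map_zero]
  rel := by
    obtain ⟨J, _, hJ⟩ := Finset.exists_subset_card_eq (s := (Finset.univ : Finset (Fin n)))
      (n := k) (by rw [Finset.card_univ, Fintype.card_fin]; exact hkn)
    refine ⟨⟨J, hJ⟩, fun h => ?_⟩
    have h1 := h (fun _ => 1) (fun j => (j : ℂ))
    rw [aeval_X] at h1
    have h2 : plucker (veronese k n (fun _ => (1 : ℂ)) (fun j => (j : ℂ))) ⟨J, hJ⟩ =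
        (Matrix.vandermonde fun j => ((J.orderEmbOfFin hJ j : ℕ) : ℂ)).det := by
      unfold plucker
      rw [← Matrix.det_transpose (Matrix.vandermonde _)]
      congr 1
      ext i j
      simp [veronese, Matrix.vandermonde]
    rw [h2, Matrix.det_vandermonde_eq_zero_iff] at h1
    obtain ⟨i, j, hij, hne⟩ := h1
    apply hne
    have h3 : ((J.orderEmbOfFin hJ i : Fin n) : ℕ) = (J.orderEmbOfFin hJ j : Fin n) := by
      exact_mod_cast hij
    exact (J.orderEmbOfFin hJ).injective (Fin.ext h3)

/-- the nonnegative part `V(k,n)_{≥0}` (as a cone): the real points of `V(k,n)` whose nonzero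
Plücker coordinates all have the same sign. -/
def ABCTnonneg (k n : ℕ) (hk : 2 ≤ k) (hkn : k ≤ n) : Set (PIdx k n → ℝ) :=
  {x | x ∈ (ABCT k n hk hkn).RP ∧ ((∀ I, 0 ≤ x I) ∨ (∀ I, x I ≤ 0))}

end PosGeom
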