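import Pool.Agent.Helper93_ABCT.NCell

/-!
# Part I: statements (MP_a17fcb_ag), see PLAN_ABCT1.md

General theory of positive geometries with a monomial chart.
-/

open MvPolynomial Topology

namespace PosGeom

/-! ## F. Differential forms -/

section

variable {K : Type} [Field K] [Algebra ℂ K] {d : ℕ}

/-- `y` is a system of coordinates of the field `K` over `ℂ` (a transcendence basis generating it) -/
structure IsCoord (y : Fin d → K) : Prop where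
  ind : AlgebraicIndependent ℂ y
  gen : IntermediateField.adjoin ℂ (Set.range y) = ⊤

/-- the derivations `D i` are dual to `y` -/
def IsDual (y : Fin d → K) (D : Fin d → Derivation ℂ K K) : Prop :=
  (∀ i j, D i (y j) = if i = j then 1 else 0) ∧
    ∀ D' : Derivation ℂ K K, D' = ∑ i, D' (y i) • D i

/-- `dy_1/y_1 ∧ ... ∧ dy_d/y_d` -/
noncomputable def dL (y : Fin d → K) : Form K d := (∏ j, y j)⁻¹ • dW y

end

/-- FDER: the partial derivatives -/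
def FderStmt : Prop :=
  ∀ (K : Type) [Field K] [Algebra ℂ K] (d : ℕ) (y : Fin d → K), IsCoord y → ∃ D, IsDual y D

/-- FONE: forms in terms of dual derivations -/
def FoneStmt : Prop :=
  ∀ (K : Type) [Field K] [Algebra ℂ K] (d : ℕ) (y : Fin d → K) (D : Fin d → Derivation ℂ K K),
    IsDual y D → dW y ≠ 0 ∧ (∀ ω : Form K d, ω = ω D • dW y) ∧
      ∀ g : Fin d → K, dW g D = (Matrix.of fun i j => D i (g j)).det

/-- FUNI: change by a monomial transformation -/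
def FuniStmt : Prop :=
  ∀ (K : Type) [Field K] [Algebra ℂ K] (d : ℕ) (y y' : Fin d → K) (A : Matrix (Fin d) (Fin d) ℤ),
    (∀ j, y j ≠ 0) → (∀ i, y' i = ∏ j, y j ^ A i j) → dL y' = ((A.det : ℤ) : K) • dL y

/-- FTWI: change by a triangular twist -/
def FtwiStmt : Prop :=
  ∀ (K : Type) [Field K] [Algebra ℂ K] (d : ℕ) (y h : Fin d → K) (a : ℕ),
    (∀ j, y j ≠ 0) → (∀ j, h j ≠ 0) → (∀ j : Fin d, (j : ℕ) < a → h j = 1) →
    (∀ j, h j ∈ IntermediateField.adjoin ℂ {f | ∃ i : Fin d, (i : ℕ) < a ∧ f = y i}) →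
    dL (fun j => y j * h j) = dL y

/-! ## S. Specialization -/

/-- SPEC: algebra of specialization -/
def SpecStmt : Prop :=
  ∀ (ι : Type) [Fintype ι] (V : PVar ι) (L : Type) [Field L] [Algebra ℂ L] (ξ : ι → L),
    (∀ F ∈ V.I, aeval ξ F = 0) → (∃ i, ξ i ≠ 0) →
    (∀ f a b, V.SpecTo ξ f a → V.SpecTo ξ f b → a = b) ∧
    (∀ c : ℂ, V.SpecTo ξ (algebraMap ℂ V.K c) (algebraMap ℂ L c)) ∧
    (∀ f g a b, V.SpecTo ξ f a → V.SpecTo ξ g b → V.SpecTo ξ (f + g) (a + b)) ∧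
    (∀ f g a b, V.SpecTo ξ f a → V.SpecTo ξ g b → V.SpecTo ξ (f * g) (a * b)) ∧
    (∀ f a, V.SpecTo ξ f a → V.SpecTo ξ (-f) (-a)) ∧
    (∀ f a, V.SpecTo ξ f a → a ≠ 0 → V.SpecTo ξ f⁻¹ a⁻¹) ∧
    (∀ (n : ℕ) (F G : MvPolynomial ι ℂ), F.IsHomogeneous n → G.IsHomogeneous n → aeval ξ G ≠ 0 →
      ∃ f : V.K, (f : V.Frac) * aeval V.gen G = aeval V.gen F ∧
        V.SpecTo ξ f (aeval ξ F / aeval ξ G)) ∧
    (∀ f a, V.SpecTo ξ f a → a ∈ IntermediateField.adjoin ℂ {f | ∃ i j, f = ξ i / ξ j})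

/-- SGEN: specialization at the generic point and at a generic point of the same variety -/
def SgenStmt : Prop :=
  ∀ (ι : Type) [Fintype ι] (V : PVar ι),
    (∀ F : MvPolynomial ι ℂ, aeval V.gen F = 0 ↔ F ∈ V.I) ∧
    (∀ f : V.K, V.SpecTo V.gen f (f : V.Frac)) ∧
    ∀ (L : Type) [Field L] [Algebra ℂ L] (ξ : ι → L),
      (∀ (F : MvPolynomial ι ℂ) (n : ℕ), F.IsHomogeneous n → (aeval ξ F = 0 ↔ F ∈ V.I)) →
      ∃ e : V.K →ₐ[ℂ] L, (∀ f a, V.SpecTo ξ f a ↔ e f = a) ∧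
        e.fieldRange = IntermediateField.adjoin ℂ {f | ∃ i j, f = ξ i / ξ j}

/-- SREAL: real specialization -/
def SrealStmt : Prop :=
  ∀ (ι : Type) [Fintype ι] (V : PVar ι) (x : ι → ℝ), x ∈ V.RP →
    (∀ f a, V.RVal x f a → V.Val x f (a : ℂ)) ∧
    (∀ f a b, V.RVal x f a → V.RVal x f b → a = b) ∧
    (∀ c : ℝ, V.RVal x (algebraMap ℂ V.K (c : ℂ)) c) ∧
    (∀ f g a b, V.RVal x f a → V.RVal x g b → V.RVal x (f + g) (a + b)) ∧
    (∀ f g a b, V.RVal x f a → V.RVal x g b → V.RVal x (f * g) (a * b)) ∧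
    (∀ f a, V.RVal x f a → a ≠ 0 → V.RVal x f⁻¹ a⁻¹) ∧
    (∀ f a, V.RVal x f a → ∀ c : ℝ, c ≠ 0 → V.RVal (c • x) f a) ∧
    (∀ f a, V.RVal x f a → ∀ ε > 0, ∀ᶠ y in 𝓝 x, ∃ b, V.RVal y f b ∧ |b - a| < ε)

/-! ## A. Adapted coordinates along a divisor -/

/-- coordinates `y` of `V` and `y'` of `C` with `y 0` vanishing on `C` and `y (j+1)` restricting to
`y' j` -/
structure Adapted {ι : Type} {d : ℕ} (V C : PVar ι) (y : Fin (d + 1) → V.K) (y' : Fin d → C.K) :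
    Prop where
  sub : V.I ≤ C.I
  cV : IsCoord y
  cC : IsCoord y'
  z : V.SpecTo C.gen (y 0) 0
  s : ∀ j : Fin d, V.SpecTo C.gen (y j.succ) (y' j : C.Frac)

/-- ADVR: the local ring is a discrete valuation ring with uniformizer `y 0`, and the only discrete
valuation ring dominating it -/
def AdvrStmt : Prop :=
  ∀ (ι : Type) [Fintype ι] (d : ℕ) (V C : PVar ι) (y : Fin (d + 1) → V.K) (y' : Fin d → C.K),
    Adapted V C y y' →
    ∃ O : ValuationSubring V.K, IsDiscreteValuationRing O ∧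
      (∀ f : V.K, f ∈ O ↔ ∃ a : C.Frac, V.SpecTo C.gen f a) ∧
      (∀ f : V.K, O.valuation f < 1 ↔ V.SpecTo C.gen f 0) ∧
      (∀ f : V.K, V.SpecTo C.gen f 0 → ∃ (h : V.K) (a : C.Frac), V.SpecTo C.gen h a ∧ f = h * y 0) ∧
      Dominates V C O ∧
      ∀ O' : ValuationSubring V.K, IsDiscreteValuationRing O' → Dominates V C O' → O' = O

/-- ADER: partial derivatives and restriction -/
def AderStmt : Prop :=
  ∀ (ι : Type) [Fintype ι] (d : ℕ) (V C : PVar ι) (y : Fin (d + 1) → V.K) (y' : Fin d → C.K),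
    Adapted V C y y' → ∀ (D : Fin (d + 1) → Derivation ℂ V.K V.K)
      (D' : Fin d → Derivation ℂ C.K C.K), IsDual y D → IsDual y' D' →
    ∀ (g : V.K) (a : C.K), V.SpecTo C.gen g (a : C.Frac) →
      (∃ b : C.K, V.SpecTo C.gen (D 0 g) (b : C.Frac)) ∧
      ∀ j : Fin d, V.SpecTo C.gen (D j.succ g) (D' j a : C.Frac)

/-- ARES: the residue of the logarithmic form -/
def AresStmt : Prop :=
  ∀ (ι : Type) [Fintype ι] (d : ℕ) (V C : PVar ι) (y : Fin (d + 1) → V.K) (y' : Fin d → C.K),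
    Adapted V C y y' → ∀ c : ℂ,
      HasRes V C (algebraMap ℂ V.K c • dL y) (algebraMap ℂ C.K c • dL y')

/-- ARESU: uniqueness of residues -/
def AresuStmt : Prop :=
  ∀ (ι : Type) [Fintype ι] (d : ℕ) (V C : PVar ι) (y : Fin (d + 1) → V.K) (y' : Fin d → C.K),
    Adapted V C y y' → ∀ (ω : Form V.K (d + 1)) (ρ : Form C.K d), HasRes V C ω ρ →
      ∃ (f : V.K) (a : C.K), ω = f • dL y ∧ V.SpecTo C.gen f (a : C.Frac) ∧ ρ = a • dL y'

/-- AREG: regular forms along the divisor -/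
def AregStmt : Prop :=
  ∀ (ι : Type) [Fintype ι] (d : ℕ) (V C : PVar ι) (y : Fin (d + 1) → V.K) (y' : Fin d → C.K),
    Adapted V C y y' → ∀ O : ValuationSubring V.K, IsDiscreteValuationRing O → Dominates V C O →
      ∀ f : V.K, RegularAt O (f • dL y) ↔ V.SpecTo C.gen f 0

/-- ALOC: the lattice of regular forms at a valuation ring at which all coordinates are units and
which is stable under the partial derivatives -/
def AlocStmt : Prop :=
  ∀ (K : Type) [Field K] [Algebra ℂ K] (d : ℕ) (y : Fin d → K) (O : ValuationSubring K)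
    (D : Fin d → Derivation ℂ K K), IsDual y D → (∀ j, O.valuation (y j) = 1) →
    (∀ i, ∀ f ∈ O, D i f ∈ O) → ∀ f : K, RegularAt O (f • dL y) ↔ f ∈ O

/-- POLE: the poles of the logarithmic form are toric -/
def PoleStmt : Prop :=
  ∀ (K : Type) [Field K] [Algebra ℂ K] (d : ℕ) (y : Fin (d + 1) → K), IsCoord y →
    ∀ O : ValuationSubring K, IsDiscreteValuationRing O → (∀ c : ℂ, algebraMap ℂ K c ∈ O) →
    RegularAt O (dL y) ∨
    ∃ A : Matrix (Fin (d + 1)) (Fin (d + 1)) ℤ, (A.det = 1 ∨ A.det = -1) ∧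
      O.valuation (∏ j, y j ^ A 0 j) < 1 ∧
      (∀ k : Fin d, O.valuation (∏ j, y j ^ A k.succ j) = 1) ∧
      ∀ P : MvPolynomial (Fin d) ℂ, P ≠ 0 →
        O.valuation (aeval (fun k : Fin d => ∏ j, y j ^ A k.succ j) P) = 1

/-- DIM: varieties of the same dimension -/
def DimStmt : Prop :=
  ∀ (ι : Type) [Fintype ι] (C D : PVar ι) (d : ℕ), C.I ≤ D.I → Algebra.trdeg ℂ C.K = d →
    Algebra.trdeg ℂ D.K = d → C.I = D.I

/-! ## C. Normal cells -/

section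

variable {ι : Type} [Fintype ι] {d : ℕ}

/-- the Laurent monomials of degree zero in the `p i`, `i ∈ M'` -/
def MonI {K : Type} [Field K] (M' : Set ι) (p : ι → K) : Set K :=
  {f | ∃ n : ι → ℤ, (∀ i, i ∉ M' → n i = 0) ∧ ∑ i, n i = 0 ∧ f = ∏ i, p i ^ n i}

/-- the chart variables are Laurent monomials in the coordinates -/
def NCell.Good (N : NCell ι d) : Prop := ∀ j, yv d j ∈ MonI N.M N.LF

/-- the identification of the function field with the rational function field -/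
def NCell.IsE (N : NCell ι d) (e : N.var.K ≃ₐ[ℂ] Fd d) : Prop :=
  ∀ f g, N.var.SpecTo N.LF f g ↔ e f = g

/-- the chart coordinates in the function field -/
noncomputable def NCell.ch (N : NCell ι d) (e : N.var.K ≃ₐ[ℂ] Fd d) (j : Fin d) : N.var.K :=
  e.symm (yv d j)

end

/-- CFLD -/
def CfldStmt : Prop :=
  ∀ (ι : Type) [Fintype ι] (d : ℕ) (N : NCell ι d), N.Good →
    (∃ e, N.IsE e) ∧ (∀ e, N.IsE e → IsCoord (N.ch e)) ∧ Algebra.trdeg ℂ N.var.K = d ∧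
    (∀ (F : MvPolynomial ι ℂ) (n : ℕ), F.IsHomogeneous n → (aeval N.LF F = 0 ↔ F ∈ N.var.I))

/-- CPOS: real points of the variety with positive coordinates; the cell as set of real points -/
def CposStmt : Prop :=
  ∀ (ι : Type) [Fintype ι] (d : ℕ) (N : NCell ι d), N.Good →
    (∀ z : ι → ℝ, z ∈ N.Z ↔ z ∈ N.var.RP ∧ ∀ i ∈ N.M, 0 < z i) ∧
    (∀ z ∈ N.var.RP, ∀ i, i ∉ N.M → z i = 0) ∧
    (∀ z ∈ closure N.Z, z ≠ 0 → z ∈ N.var.RP ∧ ∀ i, 0 ≤ z i)

/-- FRMG: frames from polynomial parametrizations. `x₀` are the values of the coordinates `y`, the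
coordinates of the generic point are, up to a common factor, polynomials `L i` in the `y`, and
`L(x₀)` is a representative of the point `z`. -/
def FrmgStmt : Prop :=
  ∀ (ι : Type) [Fintype ι] (d : ℕ) (V : PVar ι) (y : Fin d → V.K) (L : ι → MvPolynomial (Fin d) ℂ)
    (u : V.Frac) (x₀ : Fin d → ℝ) (z : ι → ℝ) (c : ℂ), u ≠ 0 → c ≠ 0 → z ∈ V.RP →
    (∀ i, V.gen i = u * aeval (fun j => (y j : V.Frac)) (L i)) →
    (∀ i, ((z i : ℝ) : ℂ) = c * aeval (fun j => ((x₀ j : ℝ) : ℂ)) (L i)) →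
    (∀ j, V.RVal z (y j) (x₀ j)) → IsFrame V d z y

/-- JACF: in the situation of FRMG with real polynomials `L i`: regular functions are stable under
the partial derivatives, and all frames are related by invertible Jacobians. -/
def JacfStmt : Prop :=
  ∀ (ι : Type) [Fintype ι] (d : ℕ) (V : PVar ι) (y : Fin d → V.K) (D : Fin d → Derivation ℂ V.K V.K)
    (L : ι → MvPolynomial (Fin d) ℝ) (u : V.Frac) (x₀ : Fin d → ℝ) (z : ι → ℝ) (c : ℝ), u ≠ 0 →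
    c ≠ 0 → z ∈ V.RP → IsCoord y → IsDual y D →
    (∀ i, V.gen i = u * aeval (fun j => (y j : V.Frac)) (map Complex.ofRealHom (L i))) →
    (∀ i, z i = c * eval x₀ (L i)) → (∀ j, V.RVal z (y j) (x₀ j)) →
    (∀ (g : V.K) (a : ℂ), V.Val z g a → ∀ j, ∃ b, V.Val z (D j g) b) ∧
    (∀ (g : V.K) (a : ℝ), V.RVal z g a → ∀ j, ∃ b, V.RVal z (D j g) b) ∧
    (∀ (g : V.K) (a : ℝ), V.RVal z g a → ∃ P Q : MvPolynomial (Fin d) ℝ, eval x₀ Q ≠ 0 ∧
      g * aeval y (map Complex.ofRealHom Q) = aeval y (map Complex.ofRealHom P)) ∧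
    ∀ g : Fin d → V.K, IsFrame V d z g → ∃ (J : V.K) (b : ℝ), V.RVal z J b ∧ b ≠ 0 ∧
      dW g = J • dW y

/-- CFRM: frames in the cell -/
def CfrmStmt : Prop :=
  ∀ (ι : Type) [Fintype ι] (d : ℕ) (N : NCell ι d) (e : N.var.K ≃ₐ[ℂ] Fd d), N.Good → N.IsE e →
    ∀ (z : ι → ℝ) (τ : ℝ) (x : Fin d → ℝ), τ ≠ 0 → (∀ j, 0 < x j) →
      (∀ i, z i = τ * evN x (N.L i)) →
      z ∈ N.var.RP ∧ IsFrame N.var d z (N.ch e) ∧ ∀ j, N.var.RVal z (N.ch e j) (x j)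

/-! ## N. Facets of normal cells -/

section

variable {ι : Type} [Fintype ι] {d : ℕ}

/-- a polynomial in the coordinates, not all of whose monomials vanish on the coordinate subspace
`M'` -/
def RestNZ (M' : Set ι) (P : MvPolynomial ι ℕ) : Prop := ∃ μ ∈ P.support, ∀ i ∈ μ.support, i ∈ M'

/-- `f` is a quotient of forms with natural coefficients in the coordinates `p`, regular on the
coordinate subspace `M'` -/
def PosReg {K : Type} [Field K] (M' : Set ι) (p : ι → K) (f : K) : Prop :=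
  ∃ (n : ℕ) (P Q : MvPolynomial ι ℕ), P.IsHomogeneous n ∧ Q.IsHomogeneous n ∧ RestNZ M' Q ∧
    evN p Q * f = evN p P

/-- Facet data: `A` is a unimodular change of the chart variables, `y'' k = ∏ y_j ^ (A k j)`; in the
new variables the coordinates of `N` are `u * L'' i`, `u` a monomial; at `y'' 0 = 0` the `L'' i`
become the coordinates of `N'` (factor `κ`), after a triangular twist `h` of the chart variables. -/
structure NFac (N : NCell ι (d + 1)) (N' : NCell ι d) (A : Matrix (Fin (d + 1)) (Fin (d + 1)) ℤ)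
    (L'' : ι → MvPolynomial (Fin (d + 1)) ℕ) (m : Fin (d + 1) → ℤ) (h : Fin d → Fd d) (κ : Fd d)
    (a : ℕ) : Prop where
  det : A.det = 1 ∨ A.det = -1
  eq : ∀ i, N.LF i = (∏ j, yv (d + 1) j ^ m j) *
    evN (fun k => ∏ j, yv (d + 1) j ^ A k j) (L'' i)
  κpos : PosF κ
  hpos : ∀ j, PosF (h j)
  res : ∀ i, evN (Fin.cons 0 (fun j => yv d j * h j) : Fin (d + 1) → Fd d) (L'' i) = κ * N'.LF i
  tri1 : ∀ j : Fin d, (j : ℕ) < a → h j = 1
  tri2 : ∀ j, h j ∈ IntermediateField.adjoin ℂ {f | ∃ i : Fin d, (i : ℕ) < a ∧ f = yv d i}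
  reg : ∀ k, PosReg N'.M N.LF (∏ j, yv (d + 1) j ^ A k j)
  sub : N'.M ⊂ N.M

/-- the adapted coordinates of `N` -/
noncomputable def NCell.chA (N : NCell ι (d + 1)) (e : N.var.K ≃ₐ[ℂ] Fd (d + 1))
    (A : Matrix (Fin (d + 1)) (Fin (d + 1)) ℤ) (k : Fin (d + 1)) : N.var.K :=
  ∏ j, N.ch e j ^ A k j

/-- the twisted coordinates of `N'` -/
noncomputable def NCell.chT (N' : NCell ι d) (e' : N'.var.K ≃ₐ[ℂ] Fd d) (h : Fin d → Fd d)
    (j : Fin d) : N'.var.K := e'.symm (yv d j * h j)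

end

/-- NADA: adapted coordinates from facet data -/
def NadaStmt : Prop :=
  ∀ (ι : Type) [Fintype ι] (d : ℕ) (N : NCell ι (d + 1)) (N' : NCell ι d) A L'' m h κ a,
    N.Good → N'.Good → NFac N N' A L'' m h κ a → ∀ e e', N.IsE e → N'.IsE e' →
      Adapted N.var N'.var (N.chA e A) (N'.chT e' h)

/-- NDL: the logarithmic forms -/
def NdlStmt : Prop :=
  ∀ (ι : Type) [Fintype ι] (d : ℕ) (N : NCell ι (d + 1)) (N' : NCell ι d) A L'' m h κ a,
    N.Good → N'.Good → NFac N N' A L'' m h κ a → ∀ e e', N.IsE e → N'.IsE e' →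
      dL (N.chA e A) = ((A.det : ℤ) : N.var.K) • dL (N.ch e) ∧
      dL (N'.chT e' h) = dL (N'.ch e')

/-- NVAL: values of the adapted coordinates in the cell and on the facet -/
def NvalStmt : Prop :=
  ∀ (ι : Type) [Fintype ι] (d : ℕ) (N : NCell ι (d + 1)) (N' : NCell ι d) A L'' m h κ a,
    N.Good → N'.Good → NFac N N' A L'' m h κ a → ∀ e e', N.IsE e → N'.IsE e' →
      (∀ z, (z ∈ N.Z ∨ -z ∈ N.Z) → ∀ k, ∃ b, 0 < b ∧ N.var.RVal z (N.chA e A k) b) ∧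
      (∀ z, (z ∈ N'.Z ∨ -z ∈ N'.Z) → N.var.RVal z (N.chA e A 0) 0 ∧
        ∀ k : Fin d, ∃ b, 0 < b ∧ N.var.RVal z (N.chA e A k.succ) b ∧
          N'.var.RVal z (N'.chT e' h k) b)

/-- NFRM: frames on the facet -/
def NfrmStmt : Prop :=
  ∀ (ι : Type) [Fintype ι] (d : ℕ) (N : NCell ι (d + 1)) (N' : NCell ι d) A L'' m h κ a,
    N.Good → N'.Good → NFac N N' A L'' m h κ a → ∀ e e', N.IsE e → N'.IsE e' →
      ∀ z, (z ∈ N'.Z ∨ -z ∈ N'.Z) → IsFrame N.var (d + 1) z (N.chA e A) ∧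
        IsFrame N'.var d z (N'.chT e' h)

/-- NLIM: the facet is in the closure, and its points are limits of real points outside -/
def NlimStmt : Prop :=
  ∀ (ι : Type) [Fintype ι] (d : ℕ) (N : NCell ι (d + 1)) (N' : NCell ι d) A L'' m h κ a,
    N.Good → N'.Good → NFac N N' A L'' m h κ a →
      N'.Z ⊆ closure N.Z ∧
      ∀ z ∈ N'.Z, z ∈ closure {x | x ∈ N.var.RP ∧ x ∉ N.P}

/-! ## R. Boundary -/

section

variable {ι : Type} [Fintype ι]

/-- A family of normal cells closed under facets: the hypotheses of part I. `Fac N N'` is the facet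
relation. -/
structure Family (𝒞 : ∀ d, NCell ι d → Prop)
    (Fac : ∀ d, NCell ι (d + 1) → NCell ι d → Prop) : Prop where
  good : ∀ d N, 𝒞 d N → N.Good
  closed : ∀ d N N', 𝒞 (d + 1) N → Fac d N N' → 𝒞 d N'
  fac : ∀ d N N', 𝒞 (d + 1) N → Fac d N N' → ∃ A L'' m h κ a, NFac N N' A L'' m h κ a
  B : ∀ d N, 𝒞 (d + 1) N → ∀ z ∈ closure N.Z, z ≠ 0 → z ∉ N.Z →
    ∃ N', Fac d N N' ∧ z ∈ closure N'.Z
  D : ∀ d N N', 𝒞 (d + 1) N → Fac d N N' → ∀ z ∈ closure N.Z, z ≠ 0 →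
    (∀ i, z i ≠ 0 → i ∈ N'.M) → z ∈ closure N'.Z

end

/-- RINT: the interior of the nonnegative part -/
def RintStmt : Prop :=
  ∀ (ι : Type) [Fintype ι] (𝒞 : ∀ d, NCell ι d → Prop)
    (Fac : ∀ d, NCell ι (d + 1) → NCell ι d → Prop), Family 𝒞 Fac →
    (∀ d N, 𝒞 d N → pos N.var N.P = {z | z ∈ N.Z ∨ -z ∈ N.Z} ∧ clo (pos N.var N.P) = N.P ∧
      N.P ⊆ N.var.RP ∧ N.P.Nonempty ∧ ∀ x ∈ N.P, ∀ c : ℝ, c ≠ 0 → c • x ∈ N.P) ∧
    (∀ d N N', 𝒞 (d + 1) N → Fac d N N' → N'.var.RP ∩ N.P = N'.P ∧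
      N'.P = {z | z ∈ N.P ∧ ∀ i, i ∉ N'.M → z i = 0}) ∧
    ∀ d N, 𝒞 (d + 1) N → N.P \ pos N.var N.P = ⋃ N', ⋃ (_ : Fac d N N'), N'.P

/-- RBD: the boundary components are the facets -/
def RbdStmt : Prop :=
  ∀ (ι : Type) [Fintype ι] (𝒞 : ∀ d, NCell ι d → Prop)
    (Fac : ∀ d, NCell ι (d + 1) → NCell ι d → Prop), Family 𝒞 Fac →
    ∀ d N, 𝒞 (d + 1) N → ∀ Q : Ideal (MvPolynomial ι ℂ),
      Q ∈ (vIdeal (N.P \ pos N.var N.P)).minimalPrimes ↔ ∃ N', Fac d N N' ∧ Q = N'.var.I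

/-- TCEN: the centre of a toric valuation is in the boundary -/
def TcenStmt : Prop :=
  ∀ (ι : Type) [Fintype ι] (d : ℕ) (N : NCell ι (d + 1)) (e : N.var.K ≃ₐ[ℂ] Fd (d + 1)),
    N.Good → N.IsE e → ∀ (O : ValuationSubring N.var.K) (D : PVar ι), N.var.I ≤ D.I →
    Dominates N.var D O → ∀ A : Matrix (Fin (d + 1)) (Fin (d + 1)) ℤ, (A.det = 1 ∨ A.det = -1) →
      O.valuation (N.chA e A 0) < 1 →
      (∀ k : Fin d, O.valuation (N.chA e A k.succ) = 1) →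
      (∀ P : MvPolynomial (Fin d) ℂ, P ≠ 0 →
        O.valuation (aeval (fun k : Fin d => N.chA e A k.succ) P) = 1) →
      vIdeal {z | z ∈ N.P ∧ z ∉ N.Z ∧ -z ∉ N.Z} ≤ D.I

/-- RSEM: semialgebraic sets cut out by coordinates -/
def RsemStmt : Prop :=
  ∀ (ι : Type) [Fintype ι] (P : Set (ι → ℝ)) (M' : Set ι), Semialg P →
    Semialg {z | z ∈ P ∧ ∀ i, i ∉ M' → z i = 0}

/-! ## O. Orientations -/

section

variable {ι : Type} [Fintype ι] {d : ℕ}

/-- the conditions on orientations in `Basic` -/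
structure IsOrient (V : PVar ι) (d : ℕ) (P : Set (ι → ℝ))
    (σ : (ι → ℝ) → Form V.K d → ℤ) : Prop where
  o_val : ∀ x ∈ pos V P, ∀ ω, IsVol V d x ω → σ x ω = 1 ∨ σ x ω = -1
  o_mul : ∀ x ∈ pos V P, ∀ ω, IsVol V d x ω → ∀ (f : V.K) (a : ℝ), V.RVal x f a → a ≠ 0 →
    σ x (f • ω) = (SignType.sign a : ℤ) * σ x ω
  o_loc : ∀ x ∈ pos V P, ∀ ω, IsVol V d x ω → ∀ᶠ y in 𝓝[pos V P] x, σ y ω = σ x ω
  o_proj : ∀ x ∈ pos V P, ∀ ω, IsVol V d x ω → ∀ c : ℝ, c ≠ 0 → σ (c • x) ω = σ x ω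

end

/-- OSTD: the standard orientation -/
def OstdStmt : Prop :=
  ∀ (ι : Type) [Fintype ι] (d : ℕ) (N : NCell ι d) (e : N.var.K ≃ₐ[ℂ] Fd d), N.Good → N.IsE e →
    pos N.var N.P = {z | z ∈ N.Z ∨ -z ∈ N.Z} → ∀ ε : ℤ, (ε = 1 ∨ ε = -1) →
    ∃ σ, IsOrient N.var d N.P σ ∧ ∀ z ∈ pos N.var N.P, σ z (dL (N.ch e)) = ε

/-- OSGN: an orientation is constant on the logarithmic form, which is a volume form -/
def OsgnStmt : Prop :=
  ∀ (ι : Type) [Fintype ι] (d : ℕ) (N : NCell ι d) (e : N.var.K ≃ₐ[ℂ] Fd d), N.Good → N.IsE e →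
    pos N.var N.P = {z | z ∈ N.Z ∨ -z ∈ N.Z} → ∀ σ, IsOrient N.var d N.P σ →
    (∀ z ∈ pos N.var N.P, IsVol N.var d z (dL (N.ch e))) ∧
    ∃ ε : ℤ, (ε = 1 ∨ ε = -1) ∧ ∀ z ∈ pos N.var N.P, σ z (dL (N.ch e)) = ε

/-- OLOC: frames of `N` at a point of the facet that are adapted to the facet -/
def OlocStmt : Prop :=
  ∀ (ι : Type) [Fintype ι] (d : ℕ) (N : NCell ι (d + 1)) (N' : NCell ι d) A L'' m h κ a,
    N.Good → N'.Good → NFac N N' A L'' m h κ a → ∀ e e', N.IsE e → N'.IsE e' →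
    ∀ z, (z ∈ N'.Z ∨ -z ∈ N'.Z) → ∀ (τ : N.var.K) (g : Fin d → N.var.K) (g' : Fin d → N'.var.K),
      N.var.SpecTo N'.var.gen τ 0 → (∀ i, N.var.SpecTo N'.var.gen (g i) (g' i : N'.var.Frac)) →
      IsFrame N.var (d + 1) z (Fin.cons τ g : Fin (d + 1) → N.var.K) → IsFrame N'.var d z g' →
      ∃ (w J : N.var.K) (J' : N'.var.K) (b c : ℝ), b ≠ 0 ∧ c ≠ 0 ∧ N.var.RVal z w b ∧
        τ = w * N.chA e A 0 ∧ N.var.RVal z J (b * c) ∧
        dW (Fin.cons τ g : Fin (d + 1) → N.var.K) = J • dW (N.chA e A) ∧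
        N'.var.RVal z J' c ∧ dW g' = J' • dW (N'.chT e' h)

/-- OIND: the induced orientation. Both directions: with matching signs the orientations are
induced, and induced orientations have matching signs. -/
def OindStmt : Prop :=
  ∀ (ι : Type) [Fintype ι] (d : ℕ) (N : NCell ι (d + 1)) (N' : NCell ι d) A L'' m h κ a,
    N.Good → N'.Good → NFac N N' A L'' m h κ a → ∀ e e', N.IsE e → N'.IsE e' →
    pos N.var N.P = {z | z ∈ N.Z ∨ -z ∈ N.Z} → pos N'.var N'.P = {z | z ∈ N'.Z ∨ -z ∈ N'.Z} →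
    bd N.P N'.var = N'.P →
    ∀ σ σ', IsOrient N.var (d + 1) N.P σ → IsOrient N'.var d N'.P σ' → ∀ ε ε' : ℤ,
      (∀ z ∈ pos N.var N.P, σ z (dL (N.ch e)) = ε) →
      (∀ z ∈ pos N'.var N'.P, σ' z (dL (N'.ch e')) = ε') →
      (Induced N.var N.P N'.var σ σ' ↔ ε' = A.det * ε)

/-! ## T. The theorem -/

/-- uniqueness: a form without poles in codimension one vanishes -/
def Uniq {ι : Type} [Fintype ι] {d : ℕ} (N : NCell ι (d + 1)) : Prop :=
  ∀ e, N.IsE e → ∀ f : N.var.K,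
    (∀ D : PVar ι, N.var.I ≤ D.I → Algebra.trdeg ℂ D.K = d →
      ∀ O : ValuationSubring N.var.K, IsDiscreteValuationRing O → Dominates N.var D O →
        RegularAt O (f • dL (N.ch e))) → f = 0

/-- MAIN theorem of part I -/
def MainStmt : Prop :=
  ∀ (ι : Type) [Fintype ι] (𝒞 : ∀ d, NCell ι d → Prop)
    (Fac : ∀ d, NCell ι (d + 1) → NCell ι d → Prop), Family 𝒞 Fac →
    (∀ d N, 𝒞 (d + 1) N → Uniq N) →
    ∀ d N, 𝒞 d N → Semialg N.P → ∀ e, N.IsE e →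
    ∀ σ, IsOrient N.var d N.P σ → ∀ ε : ℤ, (ε = 1 ∨ ε = -1) →
      (∀ z ∈ pos N.var N.P, σ z (dL (N.ch e)) = ε) →
      IsCanon d N.var N.P σ ((ε : N.var.K) • dL (N.ch e))

end PosGeom
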