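import Pool.Agent.Helper93_ABCT.StmtI
import Pool.Agent.Helper93_ABCT.Var
import Pool.Agent.Helper32_ABCT.Twist

/-!
# Parts K, U, W: statements (MP_a17fcb_ag), see PLAN_ABCT2.md

K: normal forms of flat cells; U: uniqueness of the canonical form; W: the ABCT variety itself.
-/

open MvPolynomial Topology

namespace PosGeom

open ABCT

/-! ## K. Normal forms -/

section

variable {ι : Type} [Fintype ι]

/-- `N` is the normal form of the flat cell `S` for the basis `b` of the chart lattice; the first `a`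
basis vectors span the part without label variables. -/
structure IsNormal (emb : ι → Finset ℕ) (S : FlatCell) {d : ℕ} (N : NCell ι d)
    (b : Fin d → (S.V →₀ ℤ)) (a : ℕ) : Prop where
  mem : ∀ j, b j ∈ S.Lam
  ind : LinearIndependent ℤ b
  span : S.Lam ≤ AddSubgroup.closure (Set.range b)
  lab : ∀ j : Fin d, (j : ℕ) < a → ∀ i : ℕ, b j (Sum.inl i) = 0
  labspan : ∀ m ∈ S.Lam, (∀ i : ℕ, m (Sum.inl i) = 0) →
    m ∈ AddSubgroup.closure {x | ∃ j : Fin d, (j : ℕ) < a ∧ x = b j}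
  eq : ∃ ν : S.V →₀ ℤ, ∀ i, S.P (emb i) = S.mono ν * evN (fun j => S.mono (b j)) (N.L i)

/-- the standing hypotheses on a flat cell -/
structure FOk (emb : ι → Finset ℕ) (S : FlatCell) : Prop where
  inj : Function.Injective emb
  wf : S.Wf
  g : S.HasG
  pos : ∀ I ∈ S.M, 0 < I.card
  sub : ∀ I ∈ S.M, ∃ i, emb i = I

end

/-- KMON: monomials with independent exponents are algebraically independent -/
def KmonStmt : Prop :=
  ∀ (K : Type) [Field K] [Algebra ℂ K] (σ : Type) (z : σ → K), AlgebraicIndependent ℂ z →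
    ∀ (n : ℕ) (b : Fin n → (σ →₀ ℤ)), LinearIndependent ℤ b →
      AlgebraicIndependent ℂ fun j => (b j).prod fun v m => z v ^ m

/-- KLAU: evaluation of Laurent polynomials -/
def KlauStmt : Prop :=
  ∀ (S : FlatCell) (K : Type) [Field K] [Algebra ℂ K] (x : S.V → K), (∀ v, x v ≠ 0) →
    ∃ (R : Subalgebra ℂ S.F) (ρ : R →ₐ[ℂ] K),
      (∀ m : S.V →₀ ℤ, ∃ h : S.mono m ∈ R, ρ ⟨S.mono m, h⟩ = m.prod fun v n => x v ^ n) ∧
      ∀ I, ∃ h : S.P I ∈ R, ρ ⟨S.P I, h⟩ = S.ev x I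

/-- KNRM: existence of normal forms -/
def KnrmStmt : Prop :=
  ∀ (ι : Type) [Fintype ι] (emb : ι → Finset ℕ) (S : FlatCell), FOk emb S →
    ∃ (d : ℕ) (N : NCell ι d) (b : Fin d → (S.V →₀ ℤ)) (a : ℕ), IsNormal emb S N b a

/-- KPRP: properties of normal forms -/
def KprpStmt : Prop :=
  ∀ (ι : Type) [Fintype ι] (emb : ι → Finset ℕ) (S : FlatCell), FOk emb S →
    ∀ (d : ℕ) (N : NCell ι d) (b : Fin d → (S.V →₀ ℤ)) (a : ℕ), IsNormal emb S N b a →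
      N.Good ∧ (∀ i ∈ N.M, N.LF i ∈ MonI N.M N.LF) ∧ N.M = {i | emb i ∈ S.M}

/-- KCLO: the positive part of a normal form and its closure -/
def KcloStmt : Prop :=
  ∀ (ι : Type) [Fintype ι] (emb : ι → Finset ℕ) (S : FlatCell), FOk emb S →
    ∀ (d : ℕ) (N : NCell ι d) (b : Fin d → (S.V →₀ ℤ)) (a : ℕ), IsNormal emb S N b a →
      N.Z = {z | ∃ z' ∈ S.Z, z = fun i => z' (emb i)} ∧
      closure N.Z = {z | ∃ z' ∈ closure S.Z, z = fun i => z' (emb i)} ∧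
      ∀ z' ∈ closure S.Z, ∀ I, z' I ≠ 0 → I ∈ S.M

/-- KGEN: the coordinates of the flat cell are a generic point of the variety of the normal form -/
def KgenStmt : Prop :=
  ∀ (ι : Type) [Fintype ι] (emb : ι → Finset ℕ) (S : FlatCell), FOk emb S →
    ∀ (d : ℕ) (N : NCell ι d) (b : Fin d → (S.V →₀ ℤ)) (a : ℕ), IsNormal emb S N b a →
      (∀ (F : MvPolynomial ι ℂ), aeval (fun i => S.P (emb i)) F = 0 ↔ F ∈ N.var.I) ∧
      ∀ e, N.IsE e → ∀ j, N.var.SpecTo (fun i => S.P (emb i)) (N.ch e j) (S.mono (b j))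

/-- KPOS: subtraction-free elements of a subfield generated by monomials -/
def KposStmt : Prop :=
  ∀ (S : FlatCell) (n : ℕ) (b : Fin n → (S.V →₀ ℤ)), LinearIndependent ℤ b → ∀ f : S.F, S.Pos f →
    f ∈ IntermediateField.adjoin ℂ (Set.range fun j => S.mono (b j)) →
    ∃ A B : MvPolynomial (Fin n) ℕ, A ≠ 0 ∧ B ≠ 0 ∧
      f = evN (fun j => S.mono (b j)) A / evN (fun j => S.mono (b j)) B

/-- KDIM: the dimension drops by one at a facet -/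
def KdimStmt : Prop :=
  ∀ (ι : Type) [Fintype ι] (emb : ι → Finset ℕ) (S S' : FlatCell), FOk emb S → FOk emb S' →
    ∀ φ : FacetData S S', φ.Ok →
    ∀ (d d' : ℕ) (N : NCell ι d) (N' : NCell ι d') (b : Fin d → (S.V →₀ ℤ))
      (b' : Fin d' → (S'.V →₀ ℤ)) (a a' : ℕ), IsNormal emb S N b a → IsNormal emb S' N' b' a' →
      d = d' + 1

/-- KLAT: the chart lattices at a facet -/
def KlatStmt : Prop :=
  ∀ (ι : Type) [Fintype ι] (emb : ι → Finset ℕ) (S S' : FlatCell), FOk emb S → FOk emb S' →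
    ∀ φ : FacetData S S', φ.Ok →
    ∀ (d : ℕ) (N : NCell ι (d + 1)) (N' : NCell ι d) (b : Fin (d + 1) → (S.V →₀ ℤ))
      (b' : Fin d → (S'.V →₀ ℤ)) (a a' : ℕ), IsNormal emb S N b a → IsNormal emb S' N' b' a' →
      ∃ A : Matrix (Fin (d + 1)) (Fin (d + 1)) ℤ, (A.det = 1 ∨ A.det = -1) ∧
        φ.pair (∑ j, A 0 j • b j) = 1 ∧
        ∀ k : Fin d, φ.pair (∑ j, A k.succ j • b j) = 0 ∧
          φ.wmono (∑ j, A k.succ j • b j) / S'.mono (b' k) ∈ S'.gapLamField ∧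
          ((k : ℕ) < a' → φ.wmono (∑ j, A k.succ j • b j) = S'.mono (b' k))

/-- the field embedding given by facet data, in the chart coordinates -/
structure PsiData {ι : Type} [Fintype ι] (emb : ι → Finset ℕ) {S S' : FlatCell}
    (φ : FacetData S S') {d : ℕ} (N : NCell ι (d + 1)) (b' : Fin d → (S'.V →₀ ℤ)) (a' : ℕ)
    (A : Matrix (Fin (d + 1)) (Fin (d + 1)) ℤ) (Ψ : Fd (d + 1) →ₐ[ℂ] RatFunc S'.F)
    (Φ : Fd d →ₐ[ℂ] S'.F) (h : Fin d → Fd d) (w₀ w₁ : S'.F) (e₀ : ℤ) : Prop where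
  det : A.det = 1 ∨ A.det = -1
  Φy : ∀ j, Φ (yv d j) = S'.mono (b' j)
  hw₀ : w₀ ≠ 0
  hw₁ : w₁ ≠ 0
  hpos : ∀ j, PosF (h j)
  tri1 : ∀ j : Fin d, (j : ℕ) < a' → h j = 1
  tri2 : ∀ j, h j ∈ IntermediateField.adjoin ℂ {f | ∃ i : Fin d, (i : ℕ) < a' ∧ f = yv d i}
  Ψ0 : Ψ (∏ j, yv (d + 1) j ^ A 0 j) = sVar S'.F * RatFunc.C w₀
  Ψk : ∀ k : Fin d, Ψ (∏ j, yv (d + 1) j ^ A k.succ j) = RatFunc.C (Φ (yv d k * h k))
  ΨP : ∀ i, φ.P (emb i) = sVar S'.F ^ e₀ * RatFunc.C w₁ * Ψ (N.LF i)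

/-- KPSI: existence of the embedding -/
def KpsiStmt : Prop :=
  ∀ (ι : Type) [Fintype ι] (emb : ι → Finset ℕ) (S S' : FlatCell), FOk emb S → FOk emb S' →
    ∀ φ : FacetData S S', φ.Ok →
    ∀ (d : ℕ) (N : NCell ι (d + 1)) (N' : NCell ι d) (b : Fin (d + 1) → (S.V →₀ ℤ))
      (b' : Fin d → (S'.V →₀ ℤ)) (a a' : ℕ), IsNormal emb S N b a → IsNormal emb S' N' b' a' →
      ∃ A Ψ Φ h w₀ w₁ e₀, PsiData emb φ N b' a' A Ψ Φ h w₀ w₁ e₀

/-- KRES: the restriction of the coordinates to the facet -/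
def KresStmt : Prop :=
  ∀ (ι : Type) [Fintype ι] (emb : ι → Finset ℕ) (S S' : FlatCell), FOk emb S → FOk emb S' →
    ∀ φ : FacetData S S', φ.Ok →
    ∀ (d : ℕ) (N : NCell ι (d + 1)) (N' : NCell ι d) (b : Fin (d + 1) → (S.V →₀ ℤ))
      (b' : Fin d → (S'.V →₀ ℤ)) (a a' : ℕ), IsNormal emb S N b a → IsNormal emb S' N' b' a' →
      ∀ A Ψ Φ h w₀ w₁ e₀, PsiData emb φ N b' a' A Ψ Φ h w₀ w₁ e₀ →
      ∃ (L'' : ι → MvPolynomial (Fin (d + 1)) ℕ) (m : Fin (d + 1) → ℤ) (κ : Fd d), PosF κ ∧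
        (∀ i, N.LF i = (∏ j, yv (d + 1) j ^ m j) *
          evN (fun k => ∏ j, yv (d + 1) j ^ A k j) (L'' i)) ∧
        ∀ i, evN (Fin.cons 0 (fun j => yv d j * h j) : Fin (d + 1) → Fd d) (L'' i) = κ * N'.LF i

/-- KREG: the adapted coordinates are regular along the facet -/
def KregStmt : Prop :=
  ∀ (ι : Type) [Fintype ι] (emb : ι → Finset ℕ) (S S' : FlatCell), FOk emb S → FOk emb S' →
    ∀ φ : FacetData S S', φ.Ok →
    ∀ (d : ℕ) (N : NCell ι (d + 1)) (N' : NCell ι d) (b : Fin (d + 1) → (S.V →₀ ℤ))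
      (b' : Fin d → (S'.V →₀ ℤ)) (a a' : ℕ), IsNormal emb S N b a → IsNormal emb S' N' b' a' →
      ∀ A Ψ Φ h w₀ w₁ e₀, PsiData emb φ N b' a' A Ψ Φ h w₀ w₁ e₀ →
      ∀ k, PosReg N'.M N.LF (∏ j, yv (d + 1) j ^ A k j)

/-- KFAC: facet data of normal forms -/
def KfacStmt : Prop :=
  ∀ (ι : Type) [Fintype ι] (emb : ι → Finset ℕ) (S S' : FlatCell), FOk emb S → FOk emb S' →
    ∀ φ : FacetData S S', φ.Ok →
    ∀ (d : ℕ) (N : NCell ι (d + 1)) (N' : NCell ι d) (b : Fin (d + 1) → (S.V →₀ ℤ))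
      (b' : Fin d → (S'.V →₀ ℤ)) (a a' : ℕ), IsNormal emb S N b a → IsNormal emb S' N' b' a' →
      ∃ A L'' m h κ, NFac N N' A L'' m h κ a'

/-- the family of normal forms of nets -/
def netC {ι : Type} [Fintype ι] (emb : ι → Finset ℕ) (d : ℕ) (N : NCell ι d) : Prop :=
  ∃ (S : Net) (b : Fin d → (S.flat.V →₀ ℤ)) (a : ℕ), S.Valid ∧ 1 ≤ S.rk ∧
    (∀ I ∈ S.M, ∃ i, emb i = I) ∧ IsNormal emb S.flat N b a

/-- the facet relation of normal forms of nets -/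
def netFac {ι : Type} [Fintype ι] (emb : ι → Finset ℕ) (d : ℕ) (N : NCell ι (d + 1))
    (N' : NCell ι d) : Prop :=
  ∃ (S S' : Net) (b : Fin (d + 1) → (S.flat.V →₀ ℤ)) (a : ℕ) (b' : Fin d → (S'.flat.V →₀ ℤ))
    (a' : ℕ), S.Valid ∧ 1 ≤ S.rk ∧ (∀ I ∈ S.M, ∃ i, emb i = I) ∧ IsNormal emb S.flat N b a ∧
    IsNormal emb S'.flat N' b' a' ∧ Net.Facet S S'

/-- KFAM -/
def KfamStmt : Prop :=
  ∀ (ι : Type) [Fintype ι] (emb : ι → Finset ℕ), Function.Injective emb →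
    Family (netC emb) (netFac emb)

/-! ## U. Uniqueness -/

/-- the form `f • dL` is regular in codimension one -/
def RegAll {ι : Type} [Fintype ι] {d : ℕ} (N : NCell ι (d + 1)) (e : N.var.K ≃ₐ[ℂ] Fd (d + 1))
    (f : N.var.K) : Prop :=
  ∀ D : PVar ι, N.var.I ≤ D.I → Algebra.trdeg ℂ D.K = d →
    ∀ O : ValuationSubring N.var.K, IsDiscreteValuationRing O → Dominates N.var D O →
      RegularAt O (f • dL (N.ch e))

/-- UTRD: the transcendence degree of the function field of a hypersurface -/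
def UtrdStmt : Prop :=
  ∀ (d : ℕ) (h : MvPolynomial (Fin (d + 1)) ℂ), Irreducible h →
    ∀ (L : Type) [Field L] [Algebra ℂ L] (x : Fin (d + 1) → L), (∀ P, aeval x P = 0 ↔ h ∣ P) →
      IntermediateField.adjoin ℂ (Set.range x) = ⊤ → Algebra.trdeg ℂ L = d

/-- UHVR: the valuation ring of an irreducible polynomial -/
def UhvrStmt : Prop :=
  ∀ (K : Type) [Field K] [Algebra ℂ K] (n : ℕ) (y : Fin n → K), IsCoord y →
    ∀ h : MvPolynomial (Fin n) ℂ, Irreducible h →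
    ∃ O : ValuationSubring K, IsDiscreteValuationRing O ∧
      (∀ P Q : MvPolynomial (Fin n) ℂ, ¬ h ∣ Q → aeval y P / aeval y Q ∈ O) ∧
      (∀ P Q : MvPolynomial (Fin n) ℂ, ¬ h ∣ Q → h ∣ P →
        O.valuation (aeval y P / aeval y Q) < 1) ∧
      (∀ P Q : MvPolynomial (Fin n) ℂ, ¬ h ∣ P → Q ≠ 0 → h ∣ Q → aeval y P / aeval y Q ∉ O) ∧
      ∀ D : Fin n → Derivation ℂ K K, IsDual y D → ∀ i, ∀ f ∈ O, D i f ∈ O

/-- UDIV: the prime divisors of the open part -/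
def UdivStmt : Prop :=
  ∀ (ι : Type) [Fintype ι] (d : ℕ) (N : NCell ι (d + 1)) (e : N.var.K ≃ₐ[ℂ] Fd (d + 1)),
    N.Good → N.IsE e → ∀ h : MvPolynomial (Fin (d + 1)) ℂ, Irreducible h → (∀ j, ¬ h ∣ X j) →
    (∀ i ∈ N.M, ¬ h ∣ map (Nat.castRingHom ℂ) (N.L i)) →
    ∃ (D : PVar ι) (O : ValuationSubring N.var.K), N.var.I ≤ D.I ∧ Algebra.trdeg ℂ D.K = d ∧
      IsDiscreteValuationRing O ∧ Dominates N.var D O ∧ (∀ j, O.valuation (N.ch e j) = 1) ∧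
      (∀ D' : Fin (d + 1) → Derivation ℂ N.var.K N.var.K, IsDual (N.ch e) D' →
        ∀ i, ∀ f ∈ O, D' i f ∈ O) ∧
      ∀ P Q : MvPolynomial (Fin (d + 1)) ℂ, ¬ h ∣ P → Q ≠ 0 → h ∣ Q →
        aeval (N.ch e) P / aeval (N.ch e) Q ∉ O

/-- UREG: regular forms have coefficients in the ring of the open part -/
def UregStmt : Prop :=
  ∀ (ι : Type) [Fintype ι] (d : ℕ) (N : NCell ι (d + 1)) (e : N.var.K ≃ₐ[ℂ] Fd (d + 1)),
    N.Good → (∀ i ∈ N.M, N.LF i ∈ MonI N.M N.LF) → N.IsE e → ∀ f : N.var.K, RegAll N e f →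
    ∃ (n : ℕ) (F : MvPolynomial ι ℂ), F.IsHomogeneous (n * Nat.card N.M) ∧
      (f : N.var.Frac) * (∏ᶠ i ∈ N.M, N.var.gen i ^ n) = aeval N.var.gen F

/-- UTRA: transport along a diagonal change of coordinates -/
def UtraStmt : Prop :=
  ∀ (ι : Type) [Fintype ι] (V V' : PVar ι) (ε : ι → ℂ), (∀ i, ε i ≠ 0) →
    (∀ F, F ∈ V'.I ↔ aeval (fun i => C (ε i) * X i) F ∈ V.I) →
    ∃ t : V'.K ≃ₐ[ℂ] V.K,
      (∀ f a, V'.SpecTo (fun i => algebraMap ℂ V.Frac (ε i) * V.gen i) f a ↔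
        ((t f : V.K) : V.Frac) = a) ∧
      ∀ C' : PVar ι, V'.I ≤ C'.I → ∃ C : PVar ι, V.I ≤ C.I ∧
        Algebra.trdeg ℂ C.K = Algebra.trdeg ℂ C'.K ∧
        ∀ O' : ValuationSubring V'.K, IsDiscreteValuationRing O' → Dominates V' C' O' →
          ∃ O : ValuationSubring V.K, IsDiscreteValuationRing O ∧ Dominates V C O ∧
            ∀ f, t f ∈ O ↔ f ∈ O'

/-- UFOR: transport of regular forms -/
def UforStmt : Prop :=
  ∀ (K K' : Type) [Field K] [Algebra ℂ K] [Field K'] [Algebra ℂ K'] (t : K' ≃ₐ[ℂ] K)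
    (O : ValuationSubring K) (O' : ValuationSubring K'), (∀ f, t f ∈ O ↔ f ∈ O') →
    ∀ (d : ℕ) (y : Fin d → K') (f : K), RegularAt O (f • dL (fun j => t (y j))) →
      RegularAt O' (t.symm f • dL y)

/-- UTWI: the variety of a twist -/
def UtwiStmt : Prop :=
  ∀ (ι : Type) [Fintype ι] (emb : ι → Finset ℕ) (S T : FlatCell), FOk emb S → FOk emb T →
    ∀ τ : Twist S T, τ.Ok → ∀ (d dT : ℕ) (N : NCell ι d) (NT : NCell ι dT)
      (b : Fin d → (S.V →₀ ℤ)) (bT : Fin dT → (T.V →₀ ℤ)) (a aT : ℕ),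
      IsNormal emb S N b a → IsNormal emb T NT bT aT →
      ∀ F, F ∈ NT.var.I ↔ aeval (fun i => C ((τ.ε (emb i) : ℤ) : ℂ) * X i) F ∈ N.var.I

/-- UDER: logarithmic derivations of a rational function field, and the chain rule -/
def UderStmt : Prop :=
  (∀ (σ : Type) (v : σ), ∃ δ : Derivation ℂ (Fr σ) (Fr σ), ∀ P : MvPolynomial σ ℂ,
      δ (algebraMap _ (Fr σ) P) = algebraMap _ (Fr σ) (X v * pderiv v P)) ∧
  ∀ (K L : Type) [Field K] [Algebra ℂ K] [Field L] [Algebra ℂ L] (ε : K →ₐ[ℂ] L) (n : ℕ)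
    (y : Fin n → K) (D : Fin n → Derivation ℂ K K), IsCoord y → IsDual y D →
    ∀ (δ : Derivation ℂ L L) (f : K), δ (ε f) = ∑ i, δ (ε (y i)) * ε (D i f)

/-- ULIN: comparison of determinants -/
def UlinStmt : Prop :=
  ∀ (K : Type) [Field K] [CharZero K] (W W' : Type) [Fintype W] [Fintype W'] [DecidableEq W]
    (n : ℕ) (b : Fin n → (W → ℤ)) (b' : Fin n → (W' → ℤ)) (q : W ≃ W') (J : Matrix W W' K)
    (M : Matrix (Fin n) (Fin n) K), LinearIndependent ℤ b → LinearIndependent ℤ b' →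
    (∀ v j, ∑ w, J v w * (b' j w : K) = ∑ i, (b i v : K) * M i j) →
    (∀ a : W → ℤ, (∀ i, ∑ v, a v * b i v = 0) →
      ∃ a' : W' → ℤ, ∀ w, ∑ v, (a v : K) * J v w = (a' w : K)) →
    (J.submatrix id q).det ≠ 0 →
    ∃ c : ℚ, c ≠ 0 ∧ M.det = (c : K) * (J.submatrix id q).det

/-- UJAC: the Jacobian of a twist -/
def UjacStmt : Prop :=
  ∀ (ι : Type) [Fintype ι] (emb : ι → Finset ℕ) (S T : FlatCell), FOk emb S → FOk emb T →
    ∀ τ : Twist S T, τ.Ok → ∀ (d : ℕ) (N NT : NCell ι (d + 1))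
      (b : Fin (d + 1) → (S.V →₀ ℤ)) (bT : Fin (d + 1) → (T.V →₀ ℤ)) (a aT : ℕ),
      IsNormal emb S N b a → IsNormal emb T NT bT aT → ∀ e eT, N.IsE e → NT.IsE eT →
      ∀ t : NT.var.K ≃ₐ[ℂ] N.var.K,
        (∀ f a, NT.var.SpecTo (fun i => algebraMap ℂ N.var.Frac ((τ.ε (emb i) : ℤ) : ℂ) *
          N.var.gen i) f a ↔ ((t f : N.var.K) : N.var.Frac) = a) →
        ∃ (c : ℂ) (g : N.var.K), c ≠ 0 ∧
          N.var.SpecTo (fun i => S.P (emb i)) g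
            ((∏ᶠ k : T.G, aeval (fun h => S.x (Sum.inr h)) (τ.L k)) / (∏ᶠ h : S.G, S.x (Sum.inr h))) ∧
          dL (N.ch e) = (algebraMap ℂ N.var.K c * g) • dL (fun j => t (NT.ch eT j))

/-- UORD: functions vanishing along a facet of a twist have positive order -/
def UordStmt : Prop :=
  ∀ (ι : Type) [Fintype ι] (emb : ι → Finset ℕ) (S T T' : FlatCell), FOk emb S → FOk emb T →
    FOk emb T' → ∀ τ : Twist S T, τ.Ok → ∀ φ : FacetData T T', φ.Ok →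
    ∀ (d : ℕ) (N NT : NCell ι (d + 1)) (NT' : NCell ι d)
      (b : Fin (d + 1) → (S.V →₀ ℤ)) (bT : Fin (d + 1) → (T.V →₀ ℤ)) (bT' : Fin d → (T'.V →₀ ℤ))
      (a aT aT' : ℕ), IsNormal emb S N b a → IsNormal emb T NT bT aT →
      IsNormal emb T' NT' bT' aT' → ∀ t : NT.var.K ≃ₐ[ℂ] N.var.K,
        (∀ f a, NT.var.SpecTo (fun i => algebraMap ℂ N.var.Frac ((τ.ε (emb i) : ℤ) : ℂ) *
          N.var.gen i) f a ↔ ((t f : N.var.K) : N.var.Frac) = a) →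
      ∀ (n : ℕ) (F : MvPolynomial ι ℂ) (f g : N.var.K), F.IsHomogeneous (n * S.M.card) →
        (f : N.var.Frac) * (∏ᶠ i ∈ N.M, N.var.gen i ^ n) = aeval N.var.gen F →
        N.var.SpecTo (fun i => S.P (emb i)) g
            ((∏ᶠ k : T.G, aeval (fun h => S.x (Sum.inr h)) (τ.L k)) /
              (∏ᶠ h : S.G, S.x (Sum.inr h))) →
        NT.var.SpecTo NT'.var.gen (t.symm (f * g)) 0 →
        OrdGe (τ.fg φ n (rename emb F)) 1

/-- UALL: uniqueness from (E) -/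
def UallStmt : Prop :=
  ∀ (ι : Type) [Fintype ι] (emb : ι → Finset ℕ), Function.Injective emb → ∀ S : Net, S.Valid →
    1 ≤ S.rk → (∀ I ∈ S.M, ∃ i, emb i = I) → ∀ (d : ℕ) (N : NCell ι (d + 1))
      (b : Fin (d + 1) → (S.flat.V →₀ ℤ)) (a : ℕ), IsNormal emb S.flat N b a → Uniq N

/-! ## W. The ABCT variety -/

/-- the Plücker index as a set of natural numbers -/
def emb0 (k n : ℕ) (I : PIdx k n) : Finset ℕ := I.1.map Fin.valEmbedding

/-- WVER: the Veronese parametrization and Vandermonde vectors -/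
def WverStmt : Prop :=
  ∀ (k n : ℕ), 2 ≤ k → k ≤ n → ∀ F : MvPolynomial (PIdx k n) ℂ,
    F ∈ abctIdeal k n ↔ ∀ (κ : ℂ) (c t : ℕ → ℂ),
      aeval (fun I => ABCT.Q (List.range n) k κ c t (emb0 k n I)) F = 0

/-- WVAR: the variety of the top cell -/
def WvarStmt : Prop :=
  ∀ (k n : ℕ) (hk : 2 ≤ k) (hkn : k + 2 ≤ n) (d : ℕ) (N : NCell (PIdx k n) d)
    (b : Fin d → ((Net.gen (List.range n) k).flat.V →₀ ℤ)) (a : ℕ),
    IsNormal (emb0 k n) (Net.gen (List.range n) k).flat N b a →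
    N.var = ABCT k n hk (Nat.le_of_add_right_le hkn) ∧
      N.P = ABCTnonneg k n hk (Nat.le_of_add_right_le hkn)

/-- WSEM -/
def WsemStmt : Prop :=
  ∀ (k n : ℕ) (hk : 2 ≤ k) (hkn : k ≤ n), Semialg (ABCTnonneg k n hk hkn)

/-- WDIM -/
def WdimStmt : Prop :=
  ∀ (k n : ℕ), 2 ≤ k → k + 2 ≤ n → ∀ (d : ℕ) (N : NCell (PIdx k n) d)
    (b : Fin d → ((Net.gen (List.range n) k).flat.V →₀ ℤ)) (a : ℕ),
    IsNormal (emb0 k n) (Net.gen (List.range n) k).flat N b a → d = 2 * n - 4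

/-- the final theorem -/
def FinalStmt : Prop :=
  ∀ (k n : ℕ) (hk : 2 ≤ k) (hkn : k + 2 ≤ n),
    (∃ σ, IsOrient (ABCT k n hk (Nat.le_of_add_right_le hkn)) (2 * n - 4)
      (ABCTnonneg k n hk (Nat.le_of_add_right_le hkn)) σ) ∧
    ∀ σ, IsOrient (ABCT k n hk (Nat.le_of_add_right_le hkn)) (2 * n - 4)
        (ABCTnonneg k n hk (Nat.le_of_add_right_le hkn)) σ →
      IsPositiveGeometry (2 * n - 4) (ABCT k n hk (Nat.le_of_add_right_le hkn))
        (ABCTnonneg k n hk (Nat.le_of_add_right_le hkn)) σ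

end PosGeom
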