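import Pool.Agent.Helper93_ABCT.StmtK

/-!
# KFAC, KFAM (MP_a17fcb_ag)
-/

open MvPolynomial Topology

namespace PosGeom

namespace H93

open ABCT

theorem kfac (hPsi : KpsiStmt) (hRes : KresStmt) (hReg : KregStmt) (hPrp : KprpStmt) :
    KfacStmt := by
  intro ι _ emb S S' hS hS' φ hφ d N N' b b' a a' hN hN'
  obtain ⟨A, Ψ, Φ, h, w₀, w₁, e₀, hP⟩ := hPsi ι emb S S' hS hS' φ hφ d N N' b b' a a' hN hN'
  obtain ⟨L'', m, κ, hκ, heq, hres⟩ :=
    hRes ι emb S S' hS hS' φ hφ d N N' b b' a a' hN hN' A Ψ Φ h w₀ w₁ e₀ hP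
  refine ⟨A, L'', m, h, κ, hP.det, heq, hκ, hP.hpos, hres, hP.tri1, hP.tri2,
    hReg ι emb S S' hS hS' φ hφ d N N' b b' a a' hN hN' A Ψ Φ h w₀ w₁ e₀ hP, ?_⟩
  have h1 := (hPrp ι emb S hS (d + 1) N b a hN).2.2
  have h2 := (hPrp ι emb S' hS' d N' b' a' hN').2.2
  rw [h1, h2]
  have hsub := hφ.sub
  refine ⟨fun i hi => hsub.1 hi, fun hle => ?_⟩
  apply hsub.2
  intro I hI
  obtain ⟨i, rfl⟩ := hS.sub I hI
  exact hle hI

theorem fok_net (hWf : WfStmt) (hG : GallStmt) {ι : Type} [Fintype ι] {emb : ι → Finset ℕ}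
    (hinj : Function.Injective emb) {S : Net} (hS : S.Valid) (hrk : 1 ≤ S.rk)
    (hsub : ∀ I ∈ S.M, ∃ i, emb i = I) : FOk emb S.flat where
  inj := hinj
  wf := (hWf S hS).1
  g := hG S hS
  pos := by
    intro I hI
    have := ((hWf S hS).2 I hI).2
    omega
  sub := hsub

theorem kfam (hNrm : KnrmStmt) (hPrp : KprpStmt) (hClo : KcloStmt) (hDim : KdimStmt)
    (hFac : KfacStmt) (hWf : WfStmt) (hG : GallStmt) (hFacet : FacetStmt) (hCall : CallStmt)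
    (hBD : BDallStmt) : KfamStmt := by
  intro ι _ emb hinj
  refine ⟨?_, ?_, ?_, ?_, ?_⟩
  · rintro d N ⟨S, b, a, hS, hrk, hsub, hN⟩
    exact (hPrp ι emb S.flat (fok_net hWf hG hinj hS hrk hsub) d N b a hN).1
  · rintro d N N' - ⟨S, S', b, a, b', a', hS, hrk, hsub, hN, hN', hf⟩
    obtain ⟨hS', hE, hrk', hM⟩ := hFacet S S' hS hf
    exact ⟨S', b', a', hS', by omega, fun I hI => hsub I (hM.1 hI), hN'⟩
  · rintro d N N' - ⟨S, S', b, a, b', a', hS, hrk, hsub, hN, hN', hf⟩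
    obtain ⟨hS', hE, hrk', hM⟩ := hFacet S S' hS hf
    obtain ⟨φ, hφ⟩ := hCall S S' hS hf
    obtain ⟨A, L'', m, h, κ, hfac⟩ := hFac ι emb S.flat S'.flat (fok_net hWf hG hinj hS hrk hsub)
      (fok_net hWf hG hinj hS' (by omega) fun I hI => hsub I (hM.1 hI)) φ hφ d N N' b b' a a' hN hN'
    exact ⟨A, L'', m, h, κ, a', hfac⟩
  · rintro d N ⟨S, b, a, hS, hrk, hsub, hN⟩ z hz hz0 hzZ
    have hok := fok_net hWf hG hinj hS hrk hsub
    obtain ⟨hZ, hcl, hsupp⟩ := hClo ι emb S.flat hok (d + 1) N b a hN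
    rw [hcl] at hz
    obtain ⟨z', hz', rfl⟩ := hz
    obtain ⟨S', hf, hzS'⟩ := (hBD S hS).1 z' hz' (by
      rintro rfl
      exact hz0 rfl) (by
      intro h
      apply hzZ
      rw [hZ]
      exact ⟨z', h, rfl⟩)
    obtain ⟨hS', hE, hrk', hM⟩ := hFacet S S' hS hf
    have hok' : FOk emb S'.flat :=
      fok_net hWf hG hinj hS' (by omega) fun I hI => hsub I (hM.1 hI)
    obtain ⟨d', N', b', a', hN'⟩ := hNrm ι emb S'.flat hok'
    obtain ⟨φ, hφ⟩ := hCall S S' hS hf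
    have hd := hDim ι emb S.flat S'.flat hok hok' φ hφ (d + 1) d' N N' b b' a a' hN hN'
    obtain rfl : d' = d := by omega
    refine ⟨N', ⟨S, S', b, a, b', a', hS, hrk, hsub, hN, hN', hf⟩, ?_⟩
    rw [(hClo ι emb S'.flat hok' d' N' b' a' hN').2.1]
    exact ⟨z', hzS', rfl⟩
  · rintro d N N' - ⟨S, S', b, a, b', a', hS, hrk, hsub, hN, hN', hf⟩ z hz hz0 hzs
    have hok := fok_net hWf hG hinj hS hrk hsub
    obtain ⟨hS', hE, hrk', hM⟩ := hFacet S S' hS hf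
    have hok' : FOk emb S'.flat :=
      fok_net hWf hG hinj hS' (by omega) fun I hI => hsub I (hM.1 hI)
    obtain ⟨hZ, hcl, hsupp⟩ := hClo ι emb S.flat hok (d + 1) N b a hN
    rw [hcl] at hz
    obtain ⟨z', hz', rfl⟩ := hz
    rw [(hClo ι emb S'.flat hok' d N' b' a' hN').2.1]
    refine ⟨z', (hBD S hS).2 S' hf z' hz' (by
      rintro rfl
      exact hz0 rfl) ?_, rfl⟩
    intro I hI
    obtain ⟨i, rfl⟩ := hsub I (hsupp z' hz' I hI)
    have := hzs i hI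
    rw [(hPrp ι emb S'.flat hok' d N' b' a' hN').2.2] at this
    exact this

end H93

end PosGeom
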