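import Pool.Agent.Helper93_ABCT.StmtI

/-!
# MAIN: assembly of part I (MP_a17fcb_ag)
-/

open MvPolynomial Topology

namespace PosGeom

namespace H93

theorem pvar_ext {ι : Type} {V C : PVar ι} (h : V.I = C.I) : V = C := by
  cases V; cases C; simp only at h; subst h; rfl

section

variable {K : Type} [Field K] [Algebra ℂ K]

theorem regularAt_add {d : ℕ} (O : ValuationSubring K) {ω ω' : Form K d} (h : RegularAt O ω)
    (h' : RegularAt O ω') : RegularAt O (ω + ω') := by
  obtain ⟨m, f, g, hf, hg, rfl⟩ := h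
  obtain ⟨m', f', g', hf', hg', rfl⟩ := h'
  refine ⟨m + m', Fin.append f f', Fin.append g g', ?_, ?_, ?_⟩
  · intro k
    refine Fin.addCases (fun i => ?_) (fun i => ?_) k
    · rw [Fin.append_left]; exact hf i
    · rw [Fin.append_right]; exact hf' i
  · intro k i
    refine Fin.addCases (fun j => ?_) (fun j => ?_) k
    · rw [Fin.append_left]; exact hg j i
    · rw [Fin.append_right]; exact hg' j i
  · rw [Fin.sum_univ_add]
    simp only [Fin.append_left, Fin.append_right]

theorem regularAt_smul {d : ℕ} (O : ValuationSubring K) {ω : Form K d} (h : RegularAt O ω)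
    {c : K} (hc : c ∈ O) : RegularAt O (c • ω) := by
  obtain ⟨m, f, g, hf, hg, rfl⟩ := h
  refine ⟨m, fun k => c * f k, g, fun k => O.mul_mem _ _ hc (hf k), hg, ?_⟩
  rw [Finset.smul_sum]
  exact Finset.sum_congr rfl fun k _ => by rw [smul_smul]

theorem neg_one_smul' {d : ℕ} (ω : Form K d) : (-1 : K) • ω = -ω := by
  ext v; simp

theorem sub_smul' {d : ℕ} (a b : K) (ω : Form K d) : a • ω - b • ω = (a - b) • ω := by
  ext v
  simp only [AlternatingMap.sub_apply, AlternatingMap.smul_apply, smul_eq_mul]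
  ring

theorem smul_cancel {d : ℕ} {a b : K} {ω : Form K d} (hω : ω ≠ 0) (h : a • ω = b • ω) : a = b := by
  obtain ⟨v, hv⟩ : ∃ v, ω v ≠ 0 := by
    by_contra hc
    push Not at hc
    exact hω (by ext v; rw [hc v]; rfl)
  have := congrArg (fun η : Form K d => η v) h
  simp only [AlternatingMap.smul_apply, smul_eq_mul] at this
  exact mul_right_cancel₀ hv this

theorem smul_ne {d : ℕ} {a : K} {ω : Form K d} (ha : a ≠ 0) (hω : ω ≠ 0) : a • ω ≠ 0 := by
  intro h
  apply hω
  ext v
  have := congrArg (fun η : Form K d => η v) h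
  simp only [AlternatingMap.smul_apply, smul_eq_mul, AlternatingMap.zero_apply, mul_eq_zero] at this
  rw [AlternatingMap.zero_apply]
  exact this.resolve_left ha

theorem regularAt_sub {d : ℕ} (O : ValuationSubring K) {ω ω' : Form K d} (h : RegularAt O ω)
    (h' : RegularAt O ω') : RegularAt O (ω - ω') := by
  have := regularAt_add O h (regularAt_smul O h' (c := -1) (O.neg_mem _ O.one_mem))
  rwa [neg_one_smul', ← sub_eq_add_neg] at this

end

variable {ι : Type} [Fintype ι]

omit [Fintype ι] in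
theorem pos_subset_RP (V : PVar ι) (P : Set (ι → ℝ)) : pos V P ⊆ V.RP := fun _ h => h.1

omit [Fintype ι] in
theorem pos_subset (V : PVar ι) (P : Set (ι → ℝ)) : pos V P ⊆ P := fun _ h =>
  mem_of_mem_nhdsWithin h.1 h.2

theorem rval_neg_one (hS : SrealStmt) {V : PVar ι} {x : ι → ℝ} (hx : x ∈ V.RP) :
    V.RVal x (-1) (-1) := by
  have := (hS ι V x hx).2.2.1 (-1)
  simpa using this

theorem isCanon_unique (hS : SrealStmt) : ∀ (d : ℕ) (V : PVar ι) (P : Set (ι → ℝ))
    (σ : (ι → ℝ) → Form V.K d → ℤ) (ω ω' : Form V.K d), IsCanon d V P σ ω → IsCanon d V P σ ω' →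
    ω = ω' := by
  intro d V P σ ω ω' h h'
  cases d with
  | zero =>
    obtain ⟨hB, hω, h1⟩ := h
    obtain ⟨-, hω', h1'⟩ := h'
    have hne : (pos V P).Nonempty := by
      obtain ⟨x, hx⟩ := hB.nonempty
      rw [← hB.clo] at hx
      have : (closure (pos V P)).Nonempty := ⟨x, hx.2⟩
      exact closure_nonempty_iff.mp this
    obtain ⟨x, hx⟩ := hne
    have hvol : IsVol V 0 x (dW (Fin.elim0 : Fin 0 → V.K)) := by
      obtain ⟨g, hg⟩ := hB.smooth x hx
      refine ⟨g, 1, 1, hg, ?_, one_ne_zero, ?_⟩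
      · have := (hS ι V x hx.1).2.2.1 1
        simpa using this
      · rw [one_smul]
        congr 1
        exact Subsingleton.elim _ _
    have hneg := hB.o_mul x hx _ hvol (-1) (-1) (rval_neg_one hS hx.1) (by norm_num)
    rw [neg_one_smul'] at hneg
    have hP := pos_subset V P hx
    have h2 := h1 x hP
    have h2' := h1' x hP
    rcases hω with rfl | rfl <;> rcases hω' with rfl | rfl
    · rfl
    · rw [hneg, h2] at h2'
      norm_num at h2'
    · rw [hneg, h2'] at h2
      norm_num at h2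
    · rfl
  | succ d =>
    exact (h.2.2 ω' h'.2.1).symm

theorem basic (hCfld : CfldStmt) (hRint : RintStmt) (hCfrm : CfrmStmt)
    {𝒞 : ∀ d, NCell ι d → Prop} {Fac : ∀ d, NCell ι (d + 1) → NCell ι d → Prop}
    (hF : Family 𝒞 Fac) {d : ℕ} {N : NCell ι d} (hN : 𝒞 d N) (hsem : Semialg N.P)
    {σ : (ι → ℝ) → Form N.var.K d → ℤ} (hσ : IsOrient N.var d N.P σ) :
    Basic N.var d N.P σ := by
  obtain ⟨hpos, hclo, hsub, hne, hcone⟩ := (hRint ι 𝒞 Fac hF).1 d N hN
  have hG := hF.good d N hN
  obtain ⟨⟨e, he⟩, -, hdim, -⟩ := hCfld ι d N hG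
  refine ⟨hdim, hne, hsub, hcone, hsem, hclo, ?_, hσ.o_val, hσ.o_mul, hσ.o_loc, hσ.o_proj⟩
  intro x hx
  rw [hpos] at hx
  rcases hx with ⟨τ, y, hτ, hy, hz⟩ | ⟨τ, y, hτ, hy, hz⟩
  · exact ⟨_, (hCfrm ι d N e hG he x τ y hτ.ne' hy hz).2.1⟩
  · refine ⟨_, (hCfrm ι d N e hG he x (-τ) y (by simpa using hτ.ne') hy fun i => ?_).2.1⟩
    have := hz i
    rw [Pi.neg_apply] at this
    linarith

theorem bd_eq (hRint : RintStmt)
    {𝒞 : ∀ d, NCell ι d → Prop} {Fac : ∀ d, NCell ι (d + 1) → NCell ι d → Prop}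
    (hF : Family 𝒞 Fac) {d : ℕ} {N : NCell ι (d + 1)} {N' : NCell ι d} (hN : 𝒞 (d + 1) N)
    (h : Fac d N N') : bd N.P N'.var = N'.P := by
  have h1 := ((hRint ι 𝒞 Fac hF).2.1 d N N' hN h).1
  have h2 := ((hRint ι 𝒞 Fac hF).1 d N' (hF.closed d N N' hN h)).2.1
  unfold bd
  rw [h1, h2]

omit [Fintype ι] in
theorem isCanon_basic {d : ℕ} {V : PVar ι} {P : Set (ι → ℝ)}
    {σ : (ι → ℝ) → Form V.K d → ℤ} {ω : Form V.K d} (h : IsCanon d V P σ ω) : Basic V d P σ := by
  cases d with
  | zero => exact h.1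
  | succ d => exact h.1

theorem spec_facts (hSpec : SpecStmt) (hSgen : SgenStmt) (V D : PVar ι) (h : V.I ≤ D.I) :
    (∀ c : ℂ, V.SpecTo D.gen (algebraMap ℂ V.K c) (algebraMap ℂ D.Frac c)) ∧
    (∀ f g a b, V.SpecTo D.gen f a → V.SpecTo D.gen g b → V.SpecTo D.gen (f + g) (a + b)) ∧
    (∀ f a, V.SpecTo D.gen f a → V.SpecTo D.gen (-f) (-a)) := by
  have hne : ∃ i, D.gen i ≠ 0 := by
    obtain ⟨i, hi⟩ := D.rel
    refine ⟨i, fun h0 => hi ?_⟩
    rw [← (hSgen ι D).1, aeval_X]
    exact h0
  obtain ⟨-, h1, h2, -, h3, -⟩ := hSpec ι V D.Frac D.gen (fun F hF => ((hSgen ι D).1 F).2 (h hF)) hne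
  exact ⟨h1, h2, h3⟩

theorem main (hSr : SrealStmt) (hSpec : SpecStmt) (hSgen : SgenStmt) (hCfld : CfldStmt) (hRint : RintStmt)
    (hRbd : RbdStmt) (hCfrm : CfrmStmt) (hFder : FderStmt) (hFone : FoneStmt) (hAdvr : AdvrStmt)
    (hNada : NadaStmt) (hNdl : NdlStmt) (hOstd : OstdStmt) (hOsgn : OsgnStmt) (hOind : OindStmt)
    (hAres : AresStmt) (hAresu : AresuStmt) (hAreg : AregStmt) (hPole : PoleStmt)
    (hTcen : TcenStmt) (hDim : DimStmt) (hRsem : RsemStmt) : MainStmt := by
  intro ι _ 𝒞 Fac hF hU d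
  induction d with
  | zero =>
    intro N hN hsem e he σ hσ ε hε hs
    have hB := basic hCfld hRint hCfrm hF hN hsem hσ
    have hd : dL (N.ch e) = dW (Fin.elim0 : Fin 0 → N.var.K) := by
      unfold dL
      rw [Finset.univ_eq_empty, Finset.prod_empty, inv_one, one_smul]
      congr 1
      exact Subsingleton.elim _ _
    refine ⟨hB, ?_, ?_⟩
    · rw [hd]
      rcases hε with rfl | rfl
      · left; rw [Int.cast_one, one_smul]
      · right; rw [Int.cast_neg, Int.cast_one, neg_one_smul']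
    · intro x hx
      obtain ⟨hpos, -⟩ := (hRint ι 𝒞 Fac hF).1 0 N hN
      have hx' : x ∈ pos N.var N.P := by
        rw [hpos]
        have hray : ∀ z ∈ closure N.Z, z ≠ 0 → z ∈ N.Z := by
          intro z hz hz0
          have hcl : closure N.Z ⊆ {z | ∃ τ : ℝ, 0 ≤ τ ∧ ∀ i, z i = τ *
              evN (Fin.elim0 : Fin 0 → ℝ) (N.L i)} := by
            apply closure_minimal
            · rintro z ⟨τ, x, hτ, -, h⟩
              refine ⟨τ, hτ.le, fun i => ?_⟩
              rw [h i]
              congr 2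
              exact Subsingleton.elim _ _
            · obtain ⟨i₀, hi₀⟩ := N.ne
              have hpos0 : evN (Fin.elim0 : Fin 0 → ℝ) (N.L i₀) ≠ 0 := by
                intro h0
                apply hi₀
                have h1 : N.L i₀ = C (coeff 0 (N.L i₀)) := by
                  apply MvPolynomial.eq_C_of_isEmpty
                rw [h1, evN, eval₂_C] at h0
                have h2 : (coeff 0 (N.L i₀) : ℕ) = 0 := by
                  have : ((coeff 0 (N.L i₀) : ℕ) : ℝ) = 0 := h0
                  exact_mod_cast this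
                rw [h1, h2, C_0]
              have heq : {z : ι → ℝ | ∃ τ : ℝ, 0 ≤ τ ∧ ∀ i, z i = τ *
                  evN (Fin.elim0 : Fin 0 → ℝ) (N.L i)} =
                  {z | 0 ≤ z i₀ / evN (Fin.elim0 : Fin 0 → ℝ) (N.L i₀) ∧
                    ∀ i, z i = z i₀ / evN (Fin.elim0 : Fin 0 → ℝ) (N.L i₀) *
                      evN (Fin.elim0 : Fin 0 → ℝ) (N.L i)} := by
                ext z
                constructor
                · rintro ⟨τ, hτ, h⟩
                  have : z i₀ / evN (Fin.elim0 : Fin 0 → ℝ) (N.L i₀) = τ := by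
                    rw [h i₀]; field_simp
                  rw [Set.mem_ofPred_eq, this]
                  exact ⟨hτ, h⟩
                · rintro ⟨hτ, h⟩
                  exact ⟨_, hτ, h⟩
              rw [heq]
              have hset : {z : ι → ℝ | 0 ≤ z i₀ / evN (Fin.elim0 : Fin 0 → ℝ) (N.L i₀) ∧
                    ∀ i, z i = z i₀ / evN (Fin.elim0 : Fin 0 → ℝ) (N.L i₀) *
                      evN (Fin.elim0 : Fin 0 → ℝ) (N.L i)} =
                  {z | 0 ≤ z i₀ / evN (Fin.elim0 : Fin 0 → ℝ) (N.L i₀)} ∩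
                    ⋂ i, {z | z i = z i₀ / evN (Fin.elim0 : Fin 0 → ℝ) (N.L i₀) *
                      evN (Fin.elim0 : Fin 0 → ℝ) (N.L i)} := by
                ext z; simp
              rw [hset]
              refine IsClosed.inter ?_ (isClosed_iInter fun i => ?_)
              · exact isClosed_le continuous_const ((continuous_apply i₀).div_const _)
              · exact isClosed_eq (continuous_apply i)
                  (((continuous_apply i₀).div_const _).mul continuous_const)
          obtain ⟨τ, hτ, h⟩ := hcl hz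
          have hτ' : τ ≠ 0 := by
            rintro rfl
            apply hz0
            funext i
            rw [h i, zero_mul]; rfl
          exact ⟨τ, Fin.elim0, lt_of_le_of_ne hτ (Ne.symm hτ'), fun j => j.elim0, h⟩
        rcases hx with ⟨hx0, hx | hx⟩
        · exact Or.inl (hray x hx hx0)
        · exact Or.inr (hray _ hx (neg_ne_zero.mpr hx0))
      have hvol := (hOsgn ι 0 N e (hF.good 0 N hN) he hpos σ hσ).1 x hx'
      have h1 := hs x hx'
      rcases hε with rfl | rfl
      · rw [Int.cast_one, one_smul]; exact h1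
      · have := hσ.o_mul x hx' _ hvol (-1) (-1) (rval_neg_one hSr hx'.1) (by norm_num)
        rw [h1] at this
        rw [Int.cast_neg, Int.cast_one, this]
        simp
  | succ d ih =>
    intro N hN hsem e he σ hσ ε hε hs
    have hB := basic hCfld hRint hCfrm hF hN hsem hσ
    have hG := hF.good (d + 1) N hN
    obtain ⟨hpos, -⟩ := (hRint ι 𝒞 Fac hF).1 (d + 1) N hN
    have hcoord := (hCfld ι (d + 1) N hG).2.1 e he
    obtain ⟨D, hD⟩ := hFder _ _ _ hcoord
    have hW := (hFone _ _ _ _ hD).1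
    have hne0 : ∀ j, N.ch e j ≠ 0 := fun j => hcoord.ind.ne_zero j
    have hdL : dL (N.ch e) ≠ 0 := by
      unfold dL
      exact smul_ne (inv_ne_zero (Finset.prod_ne_zero_iff.mpr fun j _ => hne0 j)) hW
    have hεK : ((ε : ℤ) : N.var.K) ≠ 0 := by
      rcases hε with rfl | rfl <;> norm_num
    have hεε : ε * ε = 1 := by rcases hε with rfl | rfl <;> norm_num
    have facet : ∀ N', Fac d N N' → ∃ (A : Matrix (Fin (d + 1)) (Fin (d + 1)) ℤ)
        (h : Fin d → Fd d) (e' : N'.var.K ≃ₐ[ℂ] Fd d),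
        N'.IsE e' ∧ (A.det = 1 ∨ A.det = -1) ∧ Adapted N.var N'.var (N.chA e A) (N'.chT e' h) ∧
        dL (N.chA e A) = ((A.det : ℤ) : N.var.K) • dL (N.ch e) ∧
        dL (N'.chT e' h) = dL (N'.ch e') ∧
        (∀ σ', IsOrient N'.var d N'.P σ' → ∀ ε' : ℤ,
          (∀ z ∈ pos N'.var N'.P, σ' z (dL (N'.ch e')) = ε') →
          (Induced N.var N.P N'.var σ σ' ↔ ε' = A.det * ε)) := by
      intro N' hN'
      obtain ⟨A, L'', m, h, κ, a, hfac⟩ := hF.fac d N N' hN hN'
      have hG' := hF.good d N' (hF.closed d N N' hN hN')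
      obtain ⟨⟨e', he'⟩, -⟩ := hCfld ι d N' hG'
      have hndl := hNdl ι d N N' A L'' m h κ a hG hG' hfac e e' he he'
      refine ⟨A, h, e', he', hfac.det, hNada ι d N N' A L'' m h κ a hG hG' hfac e e' he he',
        hndl.1, hndl.2, ?_⟩
      intro σ' hσ' ε' hε'
      exact hOind ι d N N' A L'' m h κ a hG hG' hfac e e' he he' hpos
        ((hRint ι 𝒞 Fac hF).1 d N' (hF.closed d N N' hN hN')).1 (bd_eq hRint hF hN hN') σ σ' hσ hσ'
        ε ε' hs hε'
    have hsem' : ∀ N', Fac d N N' → Semialg N'.P := by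
      intro N' hN'
      rw [((hRint ι 𝒞 Fac hF).2.1 d N N' hN hN').2]
      exact hRsem ι N.P N'.M hsem
    have hnopole : ∀ D : PVar ι, N.var.I ≤ D.I → Algebra.trdeg ℂ D.K = d → ¬ IsBd N.var N.P D →
        NoPole N.var D (((ε : ℤ) : N.var.K) • dL (N.ch e)) := by
      intro D hDI hdim hnot O hO hdom
      have hconst : ∀ c : ℂ, algebraMap ℂ N.var.K c ∈ O := fun c =>
        (hdom _ _ ((spec_facts hSpec hSgen N.var D hDI).1 c)).1
      have hεO : ((ε : ℤ) : N.var.K) ∈ O := by
        have := hconst (ε : ℂ)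
        rwa [map_intCast] at this
      apply regularAt_smul O _ hεO
      rcases hPole _ d (N.ch e) hcoord O hO hconst with h | ⟨A, hA, h1, h2, h3⟩
      · exact h
      · exfalso
        have h4 := hTcen ι d N e hG he O D hDI hdom A hA h1 h2 h3
        have hset : {z | z ∈ N.P ∧ z ∉ N.Z ∧ -z ∉ N.Z} = N.P \ pos N.var N.P := by
          rw [hpos]
          ext z
          simp only [Set.mem_ofPred_eq, Set.mem_sdiff, not_or]
        rw [hset] at h4
        obtain ⟨Q, hQ, hQD⟩ := Ideal.exists_minimalPrimes_le h4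
        obtain ⟨N', hN', rfl⟩ := (hRbd ι 𝒞 Fac hF d N hN Q).1 hQ
        have h5 := hDim ι N'.var D d hQD
          (hCfld ι d N' (hF.good d N' (hF.closed d N N' hN hN'))).2.2.1 hdim
        apply hnot
        show D.I ∈ _
        rw [← h5]
        exact hQ
    refine ⟨hB, ⟨smul_ne hεK hdL, ?_, hnopole⟩, ?_⟩
    · intro C hC
      obtain ⟨N', hN', hCI⟩ := (hRbd ι 𝒞 Fac hF d N hN C.I).1 hC
      obtain rfl := pvar_ext hCI
      obtain ⟨A, h, e', he', hA, had, hdl, hdl', hind⟩ := facet N' hN'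
      have hN'c := hF.closed d N N' hN hN'
      have hG' := hF.good d N' hN'c
      have hpos' := ((hRint ι 𝒞 Fac hF).1 d N' hN'c).1
      have hε' : A.det * ε = 1 ∨ A.det * ε = -1 := by
        rcases hA with hA | hA <;> rcases hε with rfl | rfl <;> rw [hA] <;> norm_num
      obtain ⟨σ', hσ', hs'⟩ := hOstd ι d N' e' hG' he' hpos' (A.det * ε) hε'
      refine ⟨?_, σ', ((A.det * ε : ℤ) : N'.var.K) • dL (N'.ch e'), ?_, ?_, ?_⟩
      · obtain ⟨O, hO, h1, -⟩ := hAdvr ι d N.var N'.var _ _ had
        exact ⟨O, hO, h1⟩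
      · exact (hind σ' hσ' _ hs').2 rfl
      · have hres := hAres ι d N.var N'.var _ _ had (((A.det * ε : ℤ) : ℂ))
        rw [hdl, hdl', map_intCast, map_intCast, smul_smul, ← Int.cast_mul] at hres
        have : A.det * ε * A.det = ε := by
          rcases hA with hA | hA <;> rw [hA] <;> ring
        rwa [this] at hres
      · rw [bd_eq hRint hF hN hN']
        exact ih N' hN'c (hsem' N' hN') e' he' σ' hσ' _ hε' hs'
    · rintro ω' ⟨hω'0, hbd', hnp'⟩
      obtain ⟨f', hf'⟩ : ∃ f' : N.var.K, ω' = f' • dL (N.ch e) := by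
        refine ⟨(∏ j, N.ch e j) * ω' D, ?_⟩
        have hprod : (∏ j, N.ch e j) ≠ 0 := Finset.prod_ne_zero_iff.mpr fun j _ => hne0 j
        conv_lhs => rw [(hFone _ _ _ _ hD).2.1 ω']
        unfold dL
        rw [smul_smul]
        congr 1
        field_simp
      have hf : f' - ((ε : ℤ) : N.var.K) = 0 := by
        refine hU d N hN e he _ fun D' hDI hdim O hO hdom => ?_
        by_cases hbd : IsBd N.var N.P D'
        · obtain ⟨-, σ'', ρ', hind', hres', hcan'⟩ := hbd' D' hbd
          obtain ⟨N', hN', hCI⟩ := (hRbd ι 𝒞 Fac hF d N hN D'.I).1 hbd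
          obtain rfl := pvar_ext hCI
          obtain ⟨A, h, e', he', hA, had, hdl, hdl', hind⟩ := facet N' hN'
          have hN'c := hF.closed d N N' hN hN'
          have hG' := hF.good d N' hN'c
          have hpos' := ((hRint ι 𝒞 Fac hF).1 d N' hN'c).1
          rw [bd_eq hRint hF hN hN'] at hcan'
          have hBas := isCanon_basic hcan'
          have hσ'' : IsOrient N'.var d N'.P σ'' := ⟨hBas.o_val, hBas.o_mul, hBas.o_loc, hBas.o_proj⟩
          obtain ⟨-, ε'', hε'', hs''⟩ := hOsgn ι d N' e' hG' he' hpos' σ'' hσ''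
          have heq := (hind σ'' hσ'' ε'' hs'').1 hind'
          have hcan := ih N' hN'c (hsem' N' hN') e' he' σ'' hσ'' ε'' hε'' hs''
          have hρ := isCanon_unique hSr d _ _ _ _ _ hcan' hcan
          obtain ⟨f₁, a, hω₁, hsp, hρ₁⟩ := hAresu ι d N.var N'.var _ _ had ω' ρ' hres'
          have hcoord' := (hCfld ι d N' hG').2.1 e' he'
          obtain ⟨D₂, hD₂⟩ := hFder _ _ _ hcoord'
          have hdL' : dL (N'.ch e') ≠ 0 := by
            unfold dL
            exact smul_ne (inv_ne_zero (Finset.prod_ne_zero_iff.mpr fun j _ =>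
              hcoord'.ind.ne_zero j)) (hFone _ _ _ _ hD₂).1
          have ha : a = ((ε'' : ℤ) : N'.var.K) := by
            rw [hρ, hdl'] at hρ₁
            exact (smul_cancel hdL' hρ₁).symm
          have hff : f' = f₁ * ((A.det : ℤ) : N.var.K) := by
            rw [hω₁, hdl, smul_smul] at hf'
            exact (smul_cancel hdL hf').symm
          have hAA : A.det * A.det = 1 := by rcases hA with hA | hA <;> rw [hA] <;> norm_num
          have hAK : ((A.det : ℤ) : N.var.K) * ((A.det : ℤ) : N.var.K) = 1 := by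
            exact_mod_cast congrArg (Int.cast : ℤ → N.var.K) hAA
          have hsm : (f' - ((ε : ℤ) : N.var.K)) • dL (N.ch e) =
              (f₁ - ((ε * A.det : ℤ) : N.var.K)) • dL (N.chA e A) := by
            rw [hdl, smul_smul, hff, Int.cast_mul]
            congr 1
            linear_combination ((ε : ℤ) : N.var.K) * hAK
          rw [hsm]
          apply (hAreg ι d N.var N'.var _ _ had O hO hdom _).2
          obtain ⟨hc, hadd, hneg⟩ := spec_facts hSpec hSgen N.var N'.var had.sub
          have h1 := hneg _ _ (hc ((ε * A.det : ℤ) : ℂ))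
          have h2 := hadd _ _ _ _ hsp h1
          rw [← sub_eq_add_neg, map_intCast, map_intCast, ← sub_eq_add_neg] at h2
          convert h2 using 1
          rw [ha, heq, mul_comm A.det ε]
          have h6 : ((((ε * A.det : ℤ) : N'.var.K)) : N'.var.Frac) =
              ((ε * A.det : ℤ) : N'.var.Frac) := map_intCast (algebraMap N'.var.K N'.var.Frac) _
          rw [h6, sub_self]
        · have h1 := hnp' D' hDI hdim hbd O hO hdom
          have h2 := hnopole D' hDI hdim hbd O hO hdom
          have h3 := regularAt_sub O h1 h2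
          rwa [hf', sub_smul'] at h3
      rw [hf', sub_eq_zero.mp hf]

end H93

end PosGeom
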