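import Pool.Agent.Helper93_ABCT.Fam
import Pool.Agent.Helper93_ABCT.Main
import Pool.Agent.Helper3_ABCT.Evn

/-!
# UALL (MP_a17fcb_ag)
-/

open MvPolynomial Topology

namespace PosGeom

namespace H93

open ABCT

theorem two_le_card {ι : Type} [Fintype ι] {d : ℕ} {N : NCell ι (d + 1)} (hG : N.Good)
    (h : N.M.Subsingleton) : False := by
  classical
  obtain ⟨n, hn, hsum, heq⟩ := hG 0
  have h0 : ∀ i, n i = 0 := by
    intro i
    by_cases hi : i ∈ N.M
    · rw [← hsum, Finset.sum_eq_single i]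
      · intro j _ hj
        apply hn
        intro hjM
        exact hj (h hjM hi)
      · intro hi'; exact absurd (Finset.mem_univ i) hi'
    · exact hn i hi
  rw [Finset.prod_eq_one (fun i _ => by rw [h0 i, zpow_zero])] at heq
  have : (X 0 : MvPolynomial (Fin (d + 1)) ℂ) = 1 := by
    apply IsFractionRing.injective (MvPolynomial (Fin (d + 1)) ℂ) (Fd (d + 1))
    rw [map_one]
    exact heq
  have h2 := congrArg (MvPolynomial.eval (fun _ => (0 : ℂ))) this
  rw [eval_X, map_one] at h2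
  exact zero_ne_one h2

theorem gen_ne_zero (hCfld : CfldStmt) (hSgen : SgenStmt) {ι : Type} [Fintype ι] {d : ℕ}
    {N : NCell ι d} (hG : N.Good) {i : ι} (hi : i ∈ N.M) : N.var.gen i ≠ 0 := by
  intro h
  have h1 : (X i : MvPolynomial ι ℂ) ∈ N.var.I := by
    rw [← (hSgen ι N.var).1, aeval_X]; exact h
  have h2 := ((hCfld ι d N hG).2.2.2 (X i) 1 (isHomogeneous_X ℂ i)).2 h1
  rw [aeval_X] at h2
  exact H3.evN_yv_ne hi h2

theorem uall (hReg : UregStmt) (hTra : UtraStmt) (hTwi : UtwiStmt) (hJac : UjacStmt)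
    (hOrd : UordStmt) (hFor : UforStmt) (hNrm : KnrmStmt) (hPrp : KprpStmt) (hGen : KgenStmt)
    (hDim : KdimStmt) (hFac : KfacStmt) (hNada : NadaStmt) (hAdvr : AdvrStmt) (hAreg : AregStmt)
    (hNdl : NdlStmt) (hCfld : CfldStmt) (hSgen : SgenStmt) (hSpec : SpecStmt)
    (hWf : WfStmt) (hG : GallStmt) (hFacet : FacetStmt) (hE : EallStmt) : UallStmt := by
  classical
  intro ι _ emb hinj S hS hrk hsub d N b a hN e he f hf
  have hok := fok_net hWf hG hinj hS hrk hsub
  obtain ⟨hgood, hL, hM⟩ := hPrp ι emb S.flat hok (d + 1) N b a hN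
  obtain ⟨n, F, hF, hfF⟩ := hReg ι d N e hgood hL he f hf
  -- the support
  have hcard : Nat.card N.M = S.flat.M.card := by
    have h1 : N.M.ncard = S.flat.M.card := by
      have h2 : emb '' N.M = (S.flat.M : Set (Finset ℕ)) := by
        ext I
        constructor
        · rintro ⟨i, hi, rfl⟩
          rw [hM] at hi
          exact hi
        · intro hI
          obtain ⟨i, rfl⟩ := hsub I hI
          refine ⟨i, ?_, rfl⟩
          rw [hM]
          exact hI
      rw [← Set.ncard_coe_finset, ← h2, Set.ncard_image_of_injective _ hinj]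
    rw [← h1]; rfl
  have hcard2 : 2 ≤ S.M.card := by
    by_contra hlt
    apply two_le_card hgood
    intro i hi j hj
    rw [hM] at hi hj
    apply hinj
    exact Finset.card_le_one.mp (show S.M.card ≤ 1 by omega) _ hi _ hj
  have key : aeval S.flat.P (rename emb F) = 0 := by
    refine hE S hS hrk hcard2 n (rename emb F) ?_ ?_
    · rw [hcard] at hF
      exact hF.rename_isHomogeneous
    · intro T τ hT hτ T' hfT φ hφ
      have hMT : T.M = S.M := hτ.meq
      have hrkT : 1 ≤ T.rk := by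
        obtain ⟨I, hI⟩ : S.M.Nonempty := Finset.card_pos.mp (by omega)
        have h1 := ((hWf S hS).2 I hI).2
        have h2 := ((hWf T hT).2 I (hMT ▸ hI)).2
        omega
      have hsubT : ∀ I ∈ T.M, ∃ i, emb i = I := fun I hI => hsub I (hMT ▸ hI)
      have hokT := fok_net hWf hG hinj hT hrkT hsubT
      obtain ⟨dT, NT, bT, aT, hNT⟩ := hNrm ι emb T.flat hokT
      obtain ⟨hgoodT, -, -⟩ := hPrp ι emb T.flat hokT dT NT bT aT hNT
      have htw := hTwi ι emb S.flat T.flat hok hokT τ hτ (d + 1) dT N NT b bT a aT hN hNT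
      have hεne : ∀ i, ((τ.ε (emb i) : ℤ) : ℂ) ≠ 0 := by
        intro i
        rcases hτ.sgn (emb i) with h | h <;> rw [h] <;> norm_num
      obtain ⟨t, ht, hdiv⟩ := hTra ι N.var NT.var (fun i => ((τ.ε (emb i) : ℤ) : ℂ)) hεne htw
      obtain rfl : dT = d + 1 := by
        have h1 := (hCfld ι (d + 1) N hgood).2.2.1
        have h2 := (hCfld ι dT NT hgoodT).2.2.1
        have h3 := t.trdeg_eq
        rw [h1, h2] at h3
        exact_mod_cast h3
      obtain ⟨hT', -, hrkT', hMT'⟩ := hFacet T T' hT hfT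
      have hokT' : FOk emb T'.flat :=
        fok_net hWf hG hinj hT' (by omega) fun I hI => hsubT I (hMT'.1 hI)
      obtain ⟨dT', NT', bT', aT', hNT'⟩ := hNrm ι emb T'.flat hokT'
      have hdd := hDim ι emb T.flat T'.flat hokT hokT' φ hφ (d + 1) dT' NT NT' bT bT' aT aT'
        hNT hNT'
      obtain rfl : dT' = d := by omega
      obtain ⟨hgoodT', -, -⟩ := hPrp ι emb T'.flat hokT' dT' NT' bT' aT' hNT'
      obtain ⟨A, L'', m, h, κ, hfac⟩ := hFac ι emb T.flat T'.flat hokT hokT' φ hφ dT' NT NT' bT bT'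
        aT aT' hNT hNT'
      obtain ⟨⟨eT, heT⟩, hcT, -, -⟩ := hCfld ι (dT' + 1) NT hgoodT
      obtain ⟨⟨eT', heT'⟩, -, htrT', -⟩ := hCfld ι dT' NT' hgoodT'
      have had := hNada ι dT' NT NT' A L'' m h κ aT' hgoodT hgoodT' hfac eT eT' heT heT'
      obtain ⟨O', hO', -, -, -, hdomO', -⟩ := hAdvr ι dT' NT.var NT'.var _ _ had
      obtain ⟨C, hC, htrC, hC2⟩ := hdiv NT'.var had.sub
      obtain ⟨O, hO, hdomO, htO⟩ := hC2 O' hO' hdomO'
      have hreg := hf C hC (htrC.trans htrT') O hO hdomO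
      obtain ⟨c, g, hc, hg, hdl⟩ := hJac ι emb S.flat T.flat hok hokT τ hτ dT' N NT b bT a aT
        hN hNT e eT he heT t ht
      rw [hdl, smul_smul] at hreg
      have hreg' := hFor _ _ t O O' htO (dT' + 1) (NT.ch eT) _ hreg
      have hndl := (hNdl ι dT' NT NT' A L'' m h κ aT' hgoodT hgoodT' hfac eT eT' heT heT').1
      have hAA : A.det * A.det = 1 := by rcases hfac.det with hA | hA <;> rw [hA] <;> norm_num
      have hAK : ((A.det : ℤ) : NT.var.K) * ((A.det : ℤ) : NT.var.K) = 1 := by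
        exact_mod_cast congrArg (Int.cast : ℤ → NT.var.K) hAA
      have hsm : t.symm (f * (algebraMap ℂ N.var.K c * g)) • dL (NT.ch eT) =
          (t.symm (f * (algebraMap ℂ N.var.K c * g)) * ((A.det : ℤ) : NT.var.K)) •
            dL (NT.chA eT A) := by
        rw [hndl, smul_smul, mul_assoc, hAK, mul_one]
      rw [hsm] at hreg'
      have hsp := (hAreg ι dT' NT.var NT'.var _ _ had O' hO' hdomO' _).1 hreg'
      have hne : ∃ i, NT'.var.gen i ≠ 0 := by
        obtain ⟨i, hi⟩ := NT'.var.rel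
        refine ⟨i, fun h0 => hi ?_⟩
        rw [← (hSgen ι NT'.var).1, aeval_X]
        exact h0
      obtain ⟨-, hcst, -, hmul, -⟩ := hSpec ι NT.var NT'.var.Frac NT'.var.gen
        (fun F hF => ((hSgen ι NT'.var).1 F).2 (had.sub hF)) hne
      have hsp2 := hmul _ _ _ _ (hcst (c⁻¹ * (A.det : ℂ))) hsp
      rw [mul_zero] at hsp2
      have heq2 : algebraMap ℂ NT.var.K (c⁻¹ * (A.det : ℂ)) *
          (t.symm (f * (algebraMap ℂ N.var.K c * g)) * ((A.det : ℤ) : NT.var.K)) =
          t.symm (f * g) := by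
        have h1 : f * (algebraMap ℂ N.var.K c * g) = algebraMap ℂ N.var.K c * (f * g) := by ring
        rw [h1, map_mul t.symm, AlgEquiv.commutes, map_mul (algebraMap ℂ NT.var.K), map_intCast,
          map_inv₀]
        have hc' : algebraMap ℂ NT.var.K c ≠ 0 := by
          rw [Ne, map_eq_zero]; exact hc
        calc _ = (algebraMap ℂ NT.var.K c)⁻¹ * algebraMap ℂ NT.var.K c *
              (((A.det : ℤ) : NT.var.K) * ((A.det : ℤ) : NT.var.K)) * t.symm (f * g) := by ring
          _ = _ := by rw [inv_mul_cancel₀ hc', hAK, one_mul, one_mul]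
      rw [heq2] at hsp2
      rw [hcard] at hF
      exact hOrd ι emb S.flat T.flat T'.flat hok hokT hokT' τ hτ φ hφ dT' N NT NT' b bT bT'
        a aT aT' hN hNT hNT' t ht n F f g hF hfF hg hsp2
  rw [aeval_rename] at key
  have hFI : F ∈ N.var.I := by
    rw [← (hGen ι emb S.flat hok (d + 1) N b a hN).1]
    exact key
  have h0 := ((hSgen ι N.var).1 F).2 hFI
  rw [h0] at hfF
  have hprod : (∏ᶠ i ∈ N.M, N.var.gen i ^ n) ≠ 0 := by
    rw [finprod_mem_eq_finite_toFinset_prod _ (Set.toFinite N.M), Finset.prod_ne_zero_iff]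
    intro i hi
    exact pow_ne_zero _ (gen_ne_zero hCfld hSgen hgood ((Set.toFinite N.M).mem_toFinset.mp hi))
  have h1 := (mul_eq_zero.mp hfF).resolve_right hprod
  exact_mod_cast h1

end H93

end PosGeom
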