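import Pool.Agent.Helper93_ABCT.Uall
import Pool.Agent.Helper85_ABCT.Spec
import Pool.Agent.Helper44_ABCT.Sgen
import Pool.Agent.Helper44_ABCT.Sreal
import Pool.Agent.Helper18_ABCT.Fder
import Pool.Agent.Helper18_ABCT.Fone
import Pool.Agent.Helper53_ABCT.Funi
import Pool.Agent.Helper38_ABCT.Ftwi
import Pool.Agent.Helper85_ABCT.Advr
import Pool.Agent.Helper3_ABCT.Ader
import Pool.Agent.Helper18_ABCT.Ares
import Pool.Agent.Helper3_ABCT.Aresu
import Pool.Agent.Helper18_ABCT.Aloc
import Pool.Agent.Helper85_ABCT.Areg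
import Pool.Agent.Helper82_ABCT.Pole
import Pool.Agent.Helper38_ABCT.Dim
import Pool.Agent.Helper81_ABCT.Cfld
import Pool.Agent.Helper26_ABCT.Cpos
import Pool.Agent.Helper51_ABCT.Frmg
import Pool.Agent.Helper51_ABCT.Jacf
import Pool.Agent.Helper18_ABCT.Cfrm
import Pool.Agent.Helper3_ABCT.Nada
import Pool.Agent.Helper85_ABCT.Ndl
import Pool.Agent.Helper26_ABCT.Nval
import Pool.Agent.Helper18_ABCT.Nfrm
import Pool.Agent.Helper26_ABCT.Nlim
import Pool.Agent.Helper85_ABCT.Rsem
import Pool.Agent.Helper14_ABCT.Rint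
import Pool.Agent.Helper14_ABCT.Rbd
import Pool.Agent.Helper82_ABCT.Tcen
import Pool.Agent.Helper14_ABCT.Orient
import Pool.Agent.Helper54_ABCT.Oloc
import Pool.Agent.Helper54_ABCT.Oind
import Pool.Agent.Helper1_ABCT.Kmon
import Pool.Agent.Helper60_ABCT.KLau
import Pool.Agent.Helper81_ABCT.Knrm
import Pool.Agent.Helper18_ABCT.Kprp
import Pool.Agent.Helper31_ABCT.KCLO
import Pool.Agent.Helper60_ABCT.KGen
import Pool.Agent.Helper3_ABCT.Kpos
import Pool.Agent.Helper53_ABCT.Kdim
import Pool.Agent.Helper81_ABCT.Klat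
import Pool.Agent.Helper91_ABCT.Kpsi
import Pool.Agent.Helper9_ABCT.Kres
import Pool.Agent.Helper84_ABCT.Kreg
import Pool.Agent.Helper70_ABCT.Utrd
import Pool.Agent.Helper33_ABCT.Uhvr
import Pool.Agent.Helper58_ABCT.Udiv
import Pool.Agent.Helper58_ABCT.Ureg
import Pool.Agent.Helper31_ABCT.UTRA
import Pool.Agent.Helper14_ABCT.Ufor
import Pool.Agent.Helper53_ABCT.Utwi
import Pool.Agent.Helper3_ABCT.Uder
import Pool.Agent.Helper66_ABCT.Ulin
import Pool.Agent.Helper84_ABCT.Ujac
import Pool.Agent.Helper82_ABCT.Uord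
import Pool.Agent.Helper66_ABCT.Wver
import Pool.Agent.Helper64_ABCT.Wvar
import Pool.Agent.Helper1_ABCT.Wsem
import Pool.Agent.Helper9_ABCT.Wdim

/-!
# All statements of parts I, K, U, W (MP_a17fcb_ag)
-/

namespace PosGeom

namespace All

open ABCT

theorem spec : SpecStmt := H85.spec
theorem sgen : SgenStmt := H44.sgen spec
theorem sreal : SrealStmt := H44.sreal spec
theorem fder : FderStmt := H18.fder
theorem fone : FoneStmt := H18.fone
theorem funi : FuniStmt := H53.funi
theorem ftwi : FtwiStmt := H38.ftwi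
theorem advr : AdvrStmt := H85.advr
theorem ader : AderStmt := H3.ader spec sgen
theorem ares : AresStmt := H18.ares spec sgen advr
theorem aresu : AresuStmt := H3.aresu fder fone spec sgen advr ader
theorem aloc : AlocStmt := H18.aloc fone
theorem areg : AregStmt := H85.areg ader fder fone
theorem pole : PoleStmt := H82.pole funi
theorem dim : DimStmt := H38.dim spec sgen
theorem cfld : CfldStmt := H81.cfld sgen
theorem cpos : CposStmt := H26.cpos cfld
theorem frmg : FrmgStmt := H51.frmg spec
theorem jacf : JacfStmt := H51.jacf spec sreal fone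
theorem cfrm : CfrmStmt := H18.cfrm spec sgen sreal cfld frmg
theorem nada : NadaStmt := H3.nada sgen cfld
theorem ndl : NdlStmt := H85.ndl funi ftwi
theorem nval : NvalStmt := H26.nval cfld sgen sreal cpos cfrm
theorem nfrm : NfrmStmt := H18.nfrm spec sgen sreal cfld frmg nada nval
theorem nlim : NlimStmt := H26.nlim cpos
theorem rsem : RsemStmt := H85.rsem
theorem rint : RintStmt := H14.rint cpos nlim
theorem rbd : RbdStmt := H14.rbd rint cpos cfld dim
theorem tcen : TcenStmt := H82.tcen spec sgen cfld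
theorem ostd : OstdStmt := H14.ostd spec cfld sreal jacf cfrm fder fone
theorem osgn : OsgnStmt := H14.osgn cfld sreal cfrm
theorem oloc : OlocStmt := H54.oloc spec sgen sreal cfld cfrm nval nada fder fone ader jacf
theorem oind : OindStmt := H54.oind sreal nval nada ndl cfrm nfrm nlim osgn oloc

theorem main : MainStmt :=
  H93.main sreal spec sgen cfld rint rbd cfrm fder fone advr nada ndl ostd osgn oind ares aresu
    areg pole tcen dim rsem

theorem kmon : KmonStmt := H1.kmon
theorem klau : KlauStmt := ABCT.H60.klau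
theorem knrm : KnrmStmt := H81.knrm
theorem kprp : KprpStmt := H18.kprp kmon
theorem kclo : KcloStmt := H31.kclo klau
theorem kgen : KgenStmt := ABCT.H60.kgen kmon
theorem kpos : KposStmt := H3.kpos
theorem kdim : KdimStmt := ABCT.H53.kdim
theorem klat : KlatStmt := H81.klat
theorem kpsi : KpsiStmt := H91.kpsi kmon klau kpos klat
theorem kres : KresStmt := H9.kres
theorem kreg : KregStmt := H84.kreg kprp
theorem kfac : KfacStmt := H93.kfac kpsi kres kreg kprp
theorem kfam (hWf : WfStmt) (hG : GallStmt) (hFacet : FacetStmt) (hCall : CallStmt)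
    (hBD : BDallStmt) : KfamStmt := H93.kfam knrm kprp kclo kdim kfac hWf hG hFacet hCall hBD

theorem utrd : UtrdStmt := Helper70ABCT.utrd
theorem uhvr : UhvrStmt := H33.uhvr
theorem udiv : UdivStmt := H58.udiv utrd uhvr cfld sgen
theorem ureg : UregStmt := H58.ureg udiv aloc fder cfld sgen
theorem utra : UtraStmt := H31.utra sgen spec
theorem ufor : UforStmt := H14.ufor
theorem utwi : UtwiStmt := ABCT.H53.utwi kgen
theorem uder : UderStmt := H3.uder
theorem ulin : UlinStmt := H66.ulin
theorem uord : UordStmt := H82.uord sgen kgen kprp utwi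
theorem ujac : UjacStmt := H84.ujac kprp kgen klau sgen cfld fder fone utwi uder ulin
theorem uall (hWf : WfStmt) (hG : GallStmt) (hFacet : FacetStmt)
    (hE : EallStmt) : UallStmt :=
  H93.uall ureg utra utwi ujac uord ufor knrm kprp kgen kdim kfac nada advr areg ndl cfld sgen spec
    hWf hG hFacet hE

theorem wver : WverStmt := H66.wver
theorem wvar (hZ : ZvtxStmt) (hN : NStmt) (hC : ClosedStmt) (hwf : WfStmt) (hG : GgenStmt) :
    WvarStmt := H64.wvar wver kgen kclo hZ hN hC hwf hG
theorem wsem : WsemStmt := H1.wsem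
theorem wdim (hL : LgenStmt) : WdimStmt := H9.wdim hL

end All

end PosGeom
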