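import Pool.Agent.Helper93_ABCT.PDefs
import Pool.Agent.Helper93_ABCT.StmtI

/-!
# The two versions of the definition agree (MP_a17fcb_ag)
-/

open MvPolynomial Topology

namespace PGeo

open PosGeom

variable {ι : Type}

unseal fieldK algK fieldFr algFr in
theorem basic_iff (V : PVar ι) (d : ℕ) (P : Set (ι → ℝ)) (σ : (ι → ℝ) → Form V.K d → ℤ) :
    Basic V d P σ ↔ PosGeom.Basic V d P σ :=
  ⟨fun h => ⟨h.dim, h.nonempty, h.sub, h.cone, h.semialg, h.clo, h.smooth, h.o_val, h.o_mul,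
    h.o_loc, h.o_proj⟩, fun h => ⟨h.dim, h.nonempty, h.sub, h.cone, h.semialg, h.clo, h.smooth,
    h.o_val, h.o_mul, h.o_loc, h.o_proj⟩⟩

unseal fieldK algK fieldFr algFr in
theorem isCanon_eq : ∀ (d : ℕ), @IsCanon ι d = @PosGeom.IsCanon ι d := by
  intro d
  induction d with
  | zero =>
    funext V P σ ω
    exact propext ⟨fun h => ⟨(basic_iff V 0 P σ).1 h.1, h.2⟩,
      fun h => ⟨(basic_iff V 0 P σ).2 h.1, h.2⟩⟩
  | succ d ih =>
    funext V P σ ω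
    have h1 : IsCanon (d + 1) V P σ ω = (Basic V (d + 1) P σ ∧
      (ω ≠ 0 ∧
        (∀ C : PVar ι, IsBd V P C → IsDVRAlong V C ∧
          ∃ (σ' : (ι → ℝ) → Form (K C) d → ℤ) (ρ : Form (K C) d), Induced V P C σ σ' ∧
            HasRes V C ω ρ ∧ IsCanon d C (bd P C) σ' ρ) ∧
        (∀ D : PVar ι, V.I ≤ D.I → Algebra.trdeg ℂ (K D) = d → ¬ IsBd V P D → NoPole V D ω)) ∧
      ∀ ω' : Form (K V) (d + 1), (ω' ≠ 0 ∧
        (∀ C : PVar ι, IsBd V P C → IsDVRAlong V C ∧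
          ∃ (σ' : (ι → ℝ) → Form (K C) d → ℤ) (ρ : Form (K C) d), Induced V P C σ σ' ∧
            HasRes V C ω' ρ ∧ IsCanon d C (bd P C) σ' ρ) ∧
        (∀ D : PVar ι, V.I ≤ D.I → Algebra.trdeg ℂ (K D) = d → ¬ IsBd V P D →
          NoPole V D ω')) →
        ω' = ω) := rfl
    rw [h1, ih]
    exact propext ⟨fun h => ⟨(basic_iff V (d + 1) P σ).1 h.1, h.2⟩,
      fun h => ⟨(basic_iff V (d + 1) P σ).2 h.1, h.2⟩⟩

unseal fieldK algK fieldFr algFr in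
theorem isPositiveGeometry_eq (d : ℕ) : @IsPositiveGeometry ι d = @PosGeom.IsPositiveGeometry ι d := by
  funext V P σ
  have : IsPositiveGeometry d V P σ = ∃ ω : Form (K V) d, IsCanon d V P σ ω := rfl
  rw [this, isCanon_eq]
  rfl

unseal fieldK algK fieldFr algFr in
theorem transport {ι : Type} [Fintype ι] (V : PVar ι) (d : ℕ) (P : Set (ι → ℝ))
    (h : (∃ σ, IsOrient V d P σ) ∧
      ∀ σ, IsOrient V d P σ → PosGeom.IsPositiveGeometry d V P σ) :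
    (∃ σ, IsPositiveGeometry d V P σ) ∧ ∀ σ, Basic V d P σ → IsPositiveGeometry d V P σ := by
  rw [isPositiveGeometry_eq]
  obtain ⟨⟨σ, hσ⟩, h2⟩ := h
  refine ⟨⟨σ, h2 σ hσ⟩, fun σ hB => ?_⟩
  have hB' := (basic_iff _ _ _ _).1 hB
  exact h2 σ ⟨hB'.o_val, hB'.o_mul, hB'.o_loc, hB'.o_proj⟩

end PGeo
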