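import Mathlib

/-!
# Positive geometries (MP_a17fcb_ag)

The definition of a positive geometry (Arkani-Hamed, Bai, Lam) for subvarieties of projective space.

Projective space has homogeneous coordinates indexed by a finite type `ι`. Subsets of the real
projective space are written as cones: subsets of `ι → ℝ` without the origin, closed under
multiplication by nonzero reals. Closure and interior in projective space correspond to closure and
interior of the cones.
-/

open MvPolynomial Topology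

namespace PosGeom

/-- A closed irreducible subvariety of the complex projective space with coordinates indexed by
`ι`, given by its homogeneous prime ideal. -/
structure PVar (ι : Type) where
  I : Ideal (MvPolynomial ι ℂ)
  prime : I.IsPrime
  homog : ∀ F ∈ I, ∀ n : ℕ, homogeneousComponent n F ∈ I
  rel : ∃ i, (X i : MvPolynomial ι ℂ) ∉ I

namespace PVar

variable {ι : Type} (V : PVar ι)

instance : V.I.IsPrime := V.prime

/-- the fraction field of the homogeneous coordinate ring -/
abbrev Frac : Type := FractionRing (MvPolynomial ι ℂ ⧸ V.I)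

/-- the homogeneous coordinates of the generic point -/
noncomputable def gen (i : ι) : V.Frac :=
  algebraMap (MvPolynomial ι ℂ ⧸ V.I) V.Frac (Ideal.Quotient.mk V.I (X i))

/-- the field of rational functions of the variety: generated by the quotients of coordinates -/
noncomputable def K : IntermediateField ℂ V.Frac :=
  IntermediateField.adjoin ℂ {f | ∃ i j, f = V.gen i / V.gen j}

/-- the cone of real points -/
def RP : Set (ι → ℝ) :=
  {x | x ≠ 0 ∧ ∀ F ∈ V.I, aeval (fun i => ((x i : ℝ) : ℂ)) F = 0}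

/-- `V.SpecTo ξ f a`: the rational function `f` is regular at the point with homogeneous
coordinates `ξ` (in a field `L` over `ℂ`) and has the value `a` there: `f = F/G` with forms `F`,
`G` of the same degree and `G(ξ) ≠ 0`, and `a = F(ξ)/G(ξ)`. -/
def SpecTo {L : Type} [Field L] [Algebra ℂ L] (ξ : ι → L) (f : V.K) (a : L) : Prop :=
  ∃ (n : ℕ) (F G : MvPolynomial ι ℂ), F.IsHomogeneous n ∧ G.IsHomogeneous n ∧
    aeval ξ G ≠ 0 ∧ (f : V.Frac) * aeval V.gen G = aeval V.gen F ∧ a * aeval ξ G = aeval ξ F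

/-- `V.Val x f a`: the rational function `f` is regular at the real point `x`, with value `a`. -/
def Val (x : ι → ℝ) (f : V.K) (a : ℂ) : Prop := V.SpecTo (fun i => ((x i : ℝ) : ℂ)) f a

/-- `V.RVal x f a`: the rational function `f` is real (a quotient of real forms), regular at the
real point `x`, with real value `a`. -/
def RVal (x : ι → ℝ) (f : V.K) (a : ℝ) : Prop :=
  ∃ (n : ℕ) (F G : MvPolynomial ι ℝ), F.IsHomogeneous n ∧ G.IsHomogeneous n ∧
    eval x G ≠ 0 ∧ (f : V.Frac) * aeval V.gen (map Complex.ofRealHom G) =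
      aeval V.gen (map Complex.ofRealHom F) ∧ a * eval x G = eval x F

end PVar

/-! ## Differential forms -/

section Forms

variable (K : Type) [Field K] [Algebra ℂ K]

/-- Differential `d`-forms of the field `K` over `ℂ`: alternating `K`-multilinear forms on
derivations. For the function field of a variety of dimension `d` these are the rational
top forms. -/
abbrev Form (d : ℕ) : Type := (Derivation ℂ K K) [⋀^Fin d]→ₗ[K] K

variable {K}

/-- evaluation of derivations at an element -/
def evD (a : K) : Derivation ℂ K K →ₗ[K] K where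
  toFun D := D a
  map_add' _ _ := rfl
  map_smul' _ _ := rfl

/-- `dg_1 ∧ ... ∧ dg_d`, with values `det (D_i g_j)`. -/
noncomputable def dW {d : ℕ} (g : Fin d → K) : Form K d :=
  (Matrix.detRowAlternating (n := Fin d) (R := K)).compLinearMap
    (LinearMap.pi fun j => evD (g j))

/-- the form `ω` is regular at the valuation ring `O`: a combination with coefficients in `O` of
forms `dg_1 ∧ ... ∧ dg_d` with all `g_i` in `O`. -/
def RegularAt {d : ℕ} (O : ValuationSubring K) (ω : Form K d) : Prop :=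
  ∃ (m : ℕ) (f : Fin m → K) (g : Fin m → Fin d → K), (∀ k, f k ∈ O) ∧ (∀ k i, g k i ∈ O) ∧
    ω = ∑ k, f k • dW (g k)

end Forms

variable {ι : Type} [Fintype ι]

/-! ## Local structure along divisors -/

/-- the local ring of `V` along `C` is a discrete valuation ring. -/
def IsDVRAlong (V C : PVar ι) : Prop :=
  ∃ O : ValuationSubring V.K, IsDiscreteValuationRing O ∧
    ∀ f : V.K, f ∈ O ↔ ∃ a : C.Frac, V.SpecTo C.gen f a

/-- the valuation ring `O` dominates the local ring of `V` along `D`. -/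
def Dominates (V D : PVar ι) (O : ValuationSubring V.K) : Prop :=
  ∀ (f : V.K) (a : D.Frac), V.SpecTo D.gen f a → f ∈ O ∧ (a = 0 → O.valuation f < 1)

/-- `ω` has no pole along `D`: it is regular at all discrete valuation rings dominating the local
ring along `D` (there is only this local ring itself, if it is a discrete valuation ring). -/
def NoPole {d : ℕ} (V D : PVar ι) (ω : Form V.K d) : Prop :=
  ∀ O : ValuationSubring V.K, IsDiscreteValuationRing O → Dominates V D O → RegularAt O ω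

/-- `τ` generates the maximal ideal of the local ring of `V` along `C`. -/
def IsLocalEq (V C : PVar ι) (τ : V.K) : Prop :=
  τ ≠ 0 ∧ V.SpecTo C.gen τ 0 ∧
    ∀ f : V.K, V.SpecTo C.gen f 0 → ∃ (h : V.K) (a : C.Frac), V.SpecTo C.gen h a ∧ f = h * τ

/-- `ω` has at most a simple pole along `C`, with residue `ρ`:
`ω = ∑ f_k (dτ/τ) ∧ dg_{k1} ∧ ... ∧ dg_{kd}` and `ρ = ∑ f_k|_C dg_{k1}|_C ∧ ... ∧ dg_{kd}|_C`. -/
def HasRes {d : ℕ} (V C : PVar ι) (ω : Form V.K (d + 1)) (ρ : Form C.K d) : Prop :=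
  ∃ (τ : V.K), IsLocalEq V C τ ∧
    ∃ (m : ℕ) (f : Fin m → V.K) (g : Fin m → Fin d → V.K) (f' : Fin m → C.K)
      (g' : Fin m → Fin d → C.K),
      (∀ k, V.SpecTo C.gen (f k) (f' k : C.Frac)) ∧
      (∀ k i, V.SpecTo C.gen (g k i) (g' k i : C.Frac)) ∧
      ω = ∑ k, (f k * τ⁻¹) • dW (Fin.cons τ (g k) : Fin (d + 1) → V.K) ∧
      ρ = ∑ k, f' k • dW (g' k)

/-! ## Real geometry -/

/-- semialgebraic subsets of `ι → ℝ` -/
def Semialg (P : Set (ι → ℝ)) : Prop :=
  ∃ (m : ℕ) (E N : Fin m → Finset (MvPolynomial ι ℝ)),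
    P = {x | ∃ j, (∀ F ∈ E j, eval x F = 0) ∧ (∀ G ∈ N j, 0 < eval x G)}

/-- the interior of `P` in the real points of `V` -/
def pos (V : PVar ι) (P : Set (ι → ℝ)) : Set (ι → ℝ) :=
  {x | x ∈ V.RP ∧ ∀ᶠ y in 𝓝[V.RP] x, y ∈ P}

/-- closure (of cones without the origin) -/
def clo (P : Set (ι → ℝ)) : Set (ι → ℝ) := {x | x ≠ 0 ∧ x ∈ closure P}

/-- `g` is a system of real local coordinates of `V` at the real point `x`; in particular `x` is a
smooth point if `d` is the dimension of `V`. -/
def IsFrame (V : PVar ι) (d : ℕ) (x : ι → ℝ) (g : Fin d → V.K) : Prop :=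
  ∃ a : Fin d → ℝ, (∀ i, V.RVal x (g i) (a i)) ∧
    ∀ f : V.K, V.Val x f 0 → ∃ h : Fin d → V.K, (∀ i, ∃ b, V.Val x (h i) b) ∧
      f = ∑ i, h i * (g i - algebraMap ℂ V.K ((a i : ℝ) : ℂ))

/-- `ω` is a real form that is regular and nonzero at `x` (a local volume form). -/
def IsVol (V : PVar ι) (d : ℕ) (x : ι → ℝ) (ω : Form V.K d) : Prop :=
  ∃ (g : Fin d → V.K) (f : V.K) (a : ℝ), IsFrame V d x g ∧ V.RVal x f a ∧ a ≠ 0 ∧ ω = f • dW g

/-- `V` has dimension `d`, `P` is a nonempty closed semialgebraic subset of the real points of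
`V`, the closure of its interior, the interior consists of smooth points, and `σ` is an
orientation of the interior: it gives a sign to each real form which is regular and nonzero at a
point of the interior, compatible with multiplication with real functions and locally constant. -/
structure Basic (V : PVar ι) (d : ℕ) (P : Set (ι → ℝ))
    (σ : (ι → ℝ) → Form V.K d → ℤ) : Prop where
  dim : Algebra.trdeg ℂ V.K = d
  nonempty : P.Nonempty
  sub : P ⊆ V.RP
  cone : ∀ x ∈ P, ∀ c : ℝ, c ≠ 0 → c • x ∈ P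
  semialg : Semialg P
  clo : clo (pos V P) = P
  smooth : ∀ x ∈ pos V P, ∃ g, IsFrame V d x g
  o_val : ∀ x ∈ pos V P, ∀ ω, IsVol V d x ω → σ x ω = 1 ∨ σ x ω = -1
  o_mul : ∀ x ∈ pos V P, ∀ ω, IsVol V d x ω → ∀ (f : V.K) (a : ℝ), V.RVal x f a → a ≠ 0 →
    σ x (f • ω) = (SignType.sign a : ℤ) * σ x ω
  o_loc : ∀ x ∈ pos V P, ∀ ω, IsVol V d x ω → ∀ᶠ y in 𝓝[pos V P] x, σ y ω = σ x ω
  o_proj : ∀ x ∈ pos V P, ∀ ω, IsVol V d x ω → ∀ c : ℝ, c ≠ 0 → σ (c • x) ω = σ x ω

/-- the ideal of all polynomials vanishing on a set of real points -/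
def vIdeal (B : Set (ι → ℝ)) : Ideal (MvPolynomial ι ℂ) where
  carrier := {F | ∀ x ∈ B, aeval (fun i => ((x i : ℝ) : ℂ)) F = 0}
  add_mem' := by
    intro F G hF hG x hx
    rw [map_add, hF x hx, hG x hx, add_zero]
  zero_mem' := by
    intro x _
    exact map_zero _
  smul_mem' := by
    intro c F hF x hx
    rw [smul_eq_mul, map_mul, hF x hx, mul_zero]

/-- `C` is an irreducible component of the Zariski closure of the boundary of `P`. -/
def IsBd (V : PVar ι) (P : Set (ι → ℝ)) (C : PVar ι) : Prop :=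
  C.I ∈ (vIdeal (P \ pos V P)).minimalPrimes

/-- the nonnegative part of the boundary component `C`: the closure of the interior of `C ∩ P` in
the real points of `C`. -/
def bd (P : Set (ι → ℝ)) (C : PVar ι) : Set (ι → ℝ) := clo (pos C (C.RP ∩ P))

/-- `σ'` is the orientation of the boundary component `C` induced by `σ`. -/
def Induced {d : ℕ} (V : PVar ι) (P : Set (ι → ℝ)) (C : PVar ι)
    (σ : (ι → ℝ) → Form V.K (d + 1) → ℤ) (σ' : (ι → ℝ) → Form C.K d → ℤ) : Prop :=
  ∀ y ∈ pos C (bd P C), ∀ (τ : V.K) (g : Fin d → V.K) (g' : Fin d → C.K),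
    V.SpecTo C.gen τ 0 → (∀ i, V.SpecTo C.gen (g i) (g' i : C.Frac)) →
    IsFrame V (d + 1) y (Fin.cons τ g : Fin (d + 1) → V.K) → IsFrame C d y g' →
    ∀ᶠ x in 𝓝[pos V P] y, ∀ b : ℝ, V.RVal x τ b →
      (0 < b → σ x (dW (Fin.cons τ g : Fin (d + 1) → V.K)) = σ' y (dW g')) ∧
      (b < 0 → σ x (dW (Fin.cons τ g : Fin (d + 1) → V.K)) = - σ' y (dW g'))

/-- `ω` is the canonical form of the positive geometry `(V, P)` with orientation `σ`. -/
def IsCanon : (d : ℕ) → (V : PVar ι) → (P : Set (ι → ℝ)) →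
    (σ : (ι → ℝ) → Form V.K d → ℤ) → Form V.K d → Prop
  | 0, V, P, σ, ω => Basic V 0 P σ ∧
      (ω = dW (Fin.elim0 : Fin 0 → V.K) ∨ ω = - dW (Fin.elim0 : Fin 0 → V.K)) ∧
      ∀ x ∈ P, σ x ω = 1
  | d + 1, V, P, σ, ω => Basic V (d + 1) P σ ∧
      (ω ≠ 0 ∧
        (∀ C : PVar ι, IsBd V P C → IsDVRAlong V C ∧
          ∃ (σ' : (ι → ℝ) → Form C.K d → ℤ) (ρ : Form C.K d), Induced V P C σ σ' ∧
            HasRes V C ω ρ ∧ IsCanon d C (bd P C) σ' ρ) ∧
        (∀ D : PVar ι, V.I ≤ D.I → Algebra.trdeg ℂ D.K = d → ¬ IsBd V P D → NoPole V D ω)) ∧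
      ∀ ω' : Form V.K (d + 1), (ω' ≠ 0 ∧
        (∀ C : PVar ι, IsBd V P C → IsDVRAlong V C ∧
          ∃ (σ' : (ι → ℝ) → Form C.K d → ℤ) (ρ : Form C.K d), Induced V P C σ σ' ∧
            HasRes V C ω' ρ ∧ IsCanon d C (bd P C) σ' ρ) ∧
        (∀ D : PVar ι, V.I ≤ D.I → Algebra.trdeg ℂ D.K = d → ¬ IsBd V P D → NoPole V D ω')) →
        ω' = ω

/-- `(V, P)` with the orientation `σ` is a positive geometry of dimension `d`. -/
def IsPositiveGeometry (d : ℕ) (V : PVar ι) (P : Set (ι → ℝ))
    (σ : (ι → ℝ) → Form V.K d → ℤ) : Prop :=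
  ∃ ω : Form V.K d, IsCanon d V P σ ω

end PosGeom
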