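import Pool.Agent.Helper93_ABCT.AllI

/-!
# The final assembly (MP_a17fcb_ag)
-/

namespace PosGeom

namespace H93

open ABCT

theorem final (hWf : WfStmt) (hG : GallStmt) (hGg : GgenStmt)
    (hFacet : FacetStmt) (hCall : CallStmt) (hBD : BDallStmt) (hE : EallStmt) (hZ : ZvtxStmt)
    (hNn : NStmt) (hC : ClosedStmt) (hL : LgenStmt) : FinalStmt := by
  intro k n hk hkn
  have hvalid : (Net.gen (List.range n) k).Valid := by
    refine ⟨List.nodup_range, hk, ?_⟩
    rw [List.length_range]; exact hkn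
  have hinj : Function.Injective (emb0 k n) := by
    intro I J h
    apply Subtype.ext
    exact Finset.map_injective _ h
  have hsub : ∀ I ∈ (Net.gen (List.range n) k).M, ∃ i, emb0 k n i = I := by
    intro I hI
    have hI' : I ∈ (List.range n).toFinset.powersetCard k := hI
    rw [Finset.mem_powersetCard] at hI'
    have hlt : ∀ x ∈ I, x < n := by
      intro x hx
      have := hI'.1 hx
      simpa using this
    refine ⟨⟨I.attachFin hlt, ?_⟩, ?_⟩
    · rw [Finset.card_attachFin]; exact hI'.2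
    · ext x
      simp only [emb0, Finset.mem_map, Finset.mem_attachFin, Fin.valEmbedding_apply]
      constructor
      · rintro ⟨y, hy, rfl⟩; exact hy
      · intro hx; exact ⟨⟨x, hlt x hx⟩, hx, rfl⟩
  have hrk : 1 ≤ (Net.gen (List.range n) k).rk := by
    show 1 ≤ k
    omega
  have hok := fok_net hWf hG hinj hvalid hrk hsub
  obtain ⟨d, N, b, a, hN⟩ := All.knrm _ (emb0 k n) _ hok
  obtain rfl : d = 2 * n - 4 := All.wdim hL k n hk hkn d N b a hN
  obtain ⟨hv, hp⟩ := All.wvar hZ hNn hC hWf hGg k n hk hkn _ N b a hN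
  have hfam := All.kfam hWf hG hFacet hCall hBD _ (emb0 k n) hinj
  have hCN : netC (emb0 k n) (2 * n - 4) N := ⟨_, b, a, hvalid, hrk, hsub, hN⟩
  have hU : ∀ d (N : NCell (PIdx k n) (d + 1)), netC (emb0 k n) (d + 1) N → Uniq N := by
    rintro d N ⟨S, b, a, hS, hrkS, hsubS, hNS⟩
    exact All.uall hWf hG hFacet hE _ (emb0 k n) hinj S hS hrkS hsubS d N b a hNS
  have hsem : Semialg N.P := by
    rw [hp]; exact All.wsem k n hk _
  have hpos := ((All.rint _ _ _ hfam).1 _ N hCN).1
  have hgood := hfam.good _ N hCN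
  obtain ⟨⟨e, he⟩, -⟩ := All.cfld _ _ N hgood
  have gen : ∀ (V : PVar (PIdx k n)) (P : Set (PIdx k n → ℝ)), N.var = V → N.P = P →
      (∃ σ, IsOrient V (2 * n - 4) P σ) ∧
      ∀ σ, IsOrient V (2 * n - 4) P σ → IsPositiveGeometry (2 * n - 4) V P σ := by
    rintro _ _ rfl rfl
    constructor
    · obtain ⟨σ, hσ, -⟩ := All.ostd _ _ N e hgood he hpos 1 (Or.inl rfl)
      exact ⟨σ, hσ⟩
    · intro σ hσ
      obtain ⟨-, ε, hε, hs⟩ := All.osgn _ _ N e hgood he hpos σ hσ
      exact ⟨_, All.main _ _ _ hfam hU _ N hCN hsem e he σ hσ ε hε hs⟩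
  exact gen _ _ hv hp

end H93

end PosGeom
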