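import Pool.Agent.Helper93_ABCT.Defs

/-!
# Normal cells (MP_a17fcb_ag)

A normal cell of dimension `d` is a vector of polynomials with natural coefficients in `d` chart
variables, up to a common factor.
-/

open MvPolynomial Topology

namespace PosGeom

/-- evaluation of a polynomial with natural coefficients in a commutative semiring -/
noncomputable def evN {σ : Type} {R : Type} [CommSemiring R] (x : σ → R)
    (p : MvPolynomial σ ℕ) : R := eval₂ (Nat.castRingHom R) x p

/-- the rational function field in `d` variables over `ℂ` -/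
abbrev Fd (d : ℕ) : Type := FractionRing (MvPolynomial (Fin d) ℂ)

/-- the variables -/
noncomputable def yv (d : ℕ) (j : Fin d) : Fd d := algebraMap (MvPolynomial (Fin d) ℂ) (Fd d) (X j)

/-- positive elements of `Fd d`: quotients of nonzero polynomials with natural coefficients -/
def PosF {d : ℕ} (f : Fd d) : Prop :=
  ∃ N D : MvPolynomial (Fin d) ℕ, N ≠ 0 ∧ D ≠ 0 ∧ f = evN (yv d) N / evN (yv d) D

/-- normal cells of dimension `d` -/
structure NCell (ι : Type) (d : ℕ) where
  L : ι → MvPolynomial (Fin d) ℕ
  ne : ∃ i, L i ≠ 0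

namespace NCell

variable {ι : Type} {d : ℕ} (N : NCell ι d)

/-- the support -/
def M : Set ι := {i | N.L i ≠ 0}

/-- the coordinates as elements of the rational function field -/
noncomputable def LF (i : ι) : Fd d := evN (yv d) (N.L i)

/-- the positive part (a cone) -/
def Z : Set (ι → ℝ) :=
  {z | ∃ (τ : ℝ) (x : Fin d → ℝ), 0 < τ ∧ (∀ j, 0 < x j) ∧ ∀ i, z i = τ * evN x (N.L i)}

/-- the nonnegative part (a cone) -/
def P : Set (ι → ℝ) := {z | z ≠ 0 ∧ (z ∈ closure N.Z ∨ -z ∈ closure N.Z)}

/-- the coordinates of the generic point of the affine cone -/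
noncomputable def hom : MvPolynomial ι ℂ →ₐ[ℂ] Polynomial (MvPolynomial (Fin d) ℂ) :=
  aeval fun i => Polynomial.X * Polynomial.C (evN (fun j => (X j : MvPolynomial (Fin d) ℂ)) (N.L i))

theorem hom_coeff (F : MvPolynomial ι ℂ) (n : ℕ) :
    (N.hom F).coeff n =
      aeval (fun i => evN (fun j => (X j : MvPolynomial (Fin d) ℂ)) (N.L i))
        (homogeneousComponent n F) := by
  classical
  have key : ∀ (m : ℕ) (G : MvPolynomial ι ℂ), G.IsHomogeneous m →
      N.hom G = Polynomial.X ^ m *
        Polynomial.C (aeval (fun i => evN (fun j => (X j : MvPolynomial (Fin d) ℂ)) (N.L i)) G) := by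
    intro m G hG
    rw [hom, aeval_def, eval₂_eq, aeval_def, eval₂_eq, map_sum, Finset.mul_sum]
    refine Finset.sum_congr rfl fun μ hμ => ?_
    have hm : ∑ i ∈ μ.support, μ i = m := by
      have := hG (mem_support_iff.mp hμ)
      rw [Finsupp.weight_apply, Finsupp.sum] at this
      simpa using this
    rw [map_mul, map_prod]
    have h1 : (algebraMap ℂ (Polynomial (MvPolynomial (Fin d) ℂ))) (coeff μ G) =
        Polynomial.C ((algebraMap ℂ (MvPolynomial (Fin d) ℂ)) (coeff μ G)) := by
      rw [Polynomial.algebraMap_apply]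
    rw [h1]
    have h2 : (∏ i ∈ μ.support, (Polynomial.X * Polynomial.C
        (evN (fun j => (X j : MvPolynomial (Fin d) ℂ)) (N.L i))) ^ μ i) =
        Polynomial.X ^ m * ∏ i ∈ μ.support, Polynomial.C
        ((evN (fun j => (X j : MvPolynomial (Fin d) ℂ)) (N.L i)) ^ μ i) := by
      rw [← hm, ← Finset.prod_pow_eq_pow_sum, ← Finset.prod_mul_distrib]
      refine Finset.prod_congr rfl fun i _ => ?_
      rw [mul_pow, Polynomial.C_pow]
    rw [h2]
    ring
  have hsum : N.hom F = ∑ m ∈ Finset.range (F.totalDegree + 1), N.hom (homogeneousComponent m F) := by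
    conv_lhs => rw [← sum_homogeneousComponent F]
    rw [map_sum]
  rw [hsum, Polynomial.finsetSum_coeff]
  by_cases hn : n ∈ Finset.range (F.totalDegree + 1)
  · rw [Finset.sum_eq_single n]
    · rw [key n _ (homogeneousComponent_isHomogeneous n F), Polynomial.coeff_X_pow_mul',
        if_pos le_rfl, Nat.sub_self, Polynomial.coeff_C_zero]
    · intro m _ hm
      rw [key m _ (homogeneousComponent_isHomogeneous m F), Polynomial.coeff_X_pow_mul']
      split_ifs with h
      · rw [Polynomial.coeff_C, if_neg (by omega)]
      · rfl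
    · intro h
      exact absurd hn h
  · rw [Finset.sum_eq_zero]
    · rw [homogeneousComponent_eq_zero, map_zero]
      rw [Finset.mem_range] at hn
      omega
    · intro m hm
      rw [key m _ (homogeneousComponent_isHomogeneous m F), Polynomial.coeff_X_pow_mul']
      rw [Finset.mem_range] at hn hm
      split_ifs with h
      · rw [Polynomial.coeff_C, if_neg (by omega)]
      · rfl

/-- the projective variety of a normal cell -/
noncomputable def var : PVar ι where
  I := RingHom.ker (N.hom : MvPolynomial ι ℂ →+* Polynomial (MvPolynomial (Fin d) ℂ))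
  prime := RingHom.ker_isPrime _
  homog := by
    intro F hF n
    rw [RingHom.mem_ker] at hF ⊢
    have hF' : N.hom F = 0 := hF
    show N.hom (homogeneousComponent n F) = 0
    ext1 m
    rw [N.hom_coeff, Polynomial.coeff_zero]
    by_cases hmn : m = n
    · subst hmn
      have h1 : homogeneousComponent m (homogeneousComponent m F) = homogeneousComponent m F := by
        rw [homogeneousComponent_of_mem (homogeneousComponent_isHomogeneous m F), if_pos rfl]
      rw [h1, ← N.hom_coeff, hF', Polynomial.coeff_zero]
    · have h1 : homogeneousComponent m (homogeneousComponent n F) = 0 := by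
        rw [homogeneousComponent_of_mem (homogeneousComponent_isHomogeneous n F), if_neg hmn]
      rw [h1, map_zero]
  rel := by
    obtain ⟨i, hi⟩ := N.ne
    refine ⟨i, fun h => ?_⟩
    rw [RingHom.mem_ker] at h
    have h' : N.hom (X i) = 0 := h
    rw [hom, aeval_X] at h'
    have h2 : evN (fun j => (X j : MvPolynomial (Fin d) ℂ)) (N.L i) = 0 := by
      rcases mul_eq_zero.mp h' with h3 | h3
      · exact absurd h3 Polynomial.X_ne_zero
      · exact Polynomial.C_eq_zero.mp h3
    have h4 : evN (fun j => (X j : MvPolynomial (Fin d) ℂ)) (N.L i) =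
        map (Nat.castRingHom ℂ) (N.L i) := by
      rw [evN, ← eval₂_eta (map (Nat.castRingHom ℂ) (N.L i)), eval₂_map]
      congr 1
    rw [h4] at h2
    exact hi (map_injective (Nat.castRingHom ℂ) Nat.cast_injective (by rw [h2, map_zero]))

end NCell

end PosGeom
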