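import Pool.Agent.Helper93_ABCT.Var

/-!
# Positive geometries: the definition used in the hand-in (MP_a17fcb_ag)

The same definitions as in Defs.lean, with the function field as a type of its own.
-/

open MvPolynomial Topology

namespace PGeo

open PosGeom

variable {ι : Type}

/-- the fraction field of the homogeneous coordinate ring -/
def Fr (V : PVar ι) : Type := V.Frac

@[irreducible] noncomputable def fieldFr (V : PVar ι) : Field (Fr V) :=
  (inferInstance : Field V.Frac)

noncomputable instance (V : PVar ι) : Field (Fr V) := fieldFr V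

unseal fieldFr in
@[irreducible] noncomputable def algFr (V : PVar ι) : Algebra ℂ (Fr V) :=
  (inferInstance : Algebra ℂ V.Frac)

noncomputable instance (V : PVar ι) : Algebra ℂ (Fr V) := algFr V

/-- the homogeneous coordinates of the generic point -/
noncomputable def pt (V : PVar ι) (i : ι) : Fr V := V.gen i

/-- the subfield generated by the quotients of the coordinates of the generic point -/
noncomputable def KK (V : PVar ι) : IntermediateField ℂ (Fr V) :=
  IntermediateField.adjoin ℂ {f | ∃ i j, f = pt V i / pt V j}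

/-- the field of rational functions of the variety: the subfield generated by the quotients of the
coordinates of the generic point -/
def K (V : PVar ι) : Type := KK V

@[irreducible] noncomputable def fieldK (V : PVar ι) : Field (K V) := (inferInstance : Field (KK V))

noncomputable instance (V : PVar ι) : Field (K V) := fieldK V

unseal fieldK in
@[irreducible] noncomputable def algK (V : PVar ι) : Algebra ℂ (K V) :=
  (inferInstance : Algebra ℂ (KK V))

noncomputable instance (V : PVar ι) : Algebra ℂ (K V) := algK V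

/-- inclusion of the field of rational functions in the fraction field of the coordinate ring -/
def val {V : PVar ι} (f : K V) : Fr V := Subtype.val f

/-- `SpecTo V ξ f a`: the rational function `f` is regular at the point with homogeneous
coordinates `ξ` (in a field `L` over `ℂ`) and has the value `a` there: `f = F/G` with forms `F`,
`G` of the same degree and `G(ξ) ≠ 0`, and `a = F(ξ)/G(ξ)`. -/
def SpecTo (V : PVar ι) {L : Type} [Field L] [Algebra ℂ L] (ξ : ι → L) (f : K V) (a : L) : Prop :=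
  ∃ (n : ℕ) (F G : MvPolynomial ι ℂ), F.IsHomogeneous n ∧ G.IsHomogeneous n ∧
    aeval ξ G ≠ 0 ∧ val f * aeval (pt V) G = aeval (pt V) F ∧ a * aeval ξ G = aeval ξ F

/-- `Val V x f a`: the rational function `f` is regular at the real point `x`, with value `a`. -/
def Val (V : PVar ι) (x : ι → ℝ) (f : K V) (a : ℂ) : Prop :=
  SpecTo V (fun i => ((x i : ℝ) : ℂ)) f a

/-- `RVal V x f a`: the rational function `f` is real (a quotient of real forms), regular at the
real point `x`, with real value `a`. -/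
def RVal (V : PVar ι) (x : ι → ℝ) (f : K V) (a : ℝ) : Prop :=
  ∃ (n : ℕ) (F G : MvPolynomial ι ℝ), F.IsHomogeneous n ∧ G.IsHomogeneous n ∧
    eval x G ≠ 0 ∧ val f * aeval (pt V) (map Complex.ofRealHom G) =
      aeval (pt V) (map Complex.ofRealHom F) ∧ a * eval x G = eval x F

/-! ## Local structure along divisors -/

/-- the local ring of `V` along `C` is a discrete valuation ring. -/
def IsDVRAlong (V C : PVar ι) : Prop :=
  ∃ O : ValuationSubring (K V), IsDiscreteValuationRing O ∧
    ∀ f : K V, f ∈ O ↔ ∃ a : Fr C, SpecTo V (pt C) f a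

/-- the valuation ring `O` dominates the local ring of `V` along `D`. -/
def Dominates (V D : PVar ι) (O : ValuationSubring (K V)) : Prop :=
  ∀ (f : K V) (a : Fr D), SpecTo V (pt D) f a → f ∈ O ∧ (a = 0 → O.valuation f < 1)

/-- `ω` has no pole along `D`: it is regular at all discrete valuation rings dominating the local
ring along `D`: a combination with coefficients in the ring of forms `dg_1 ∧ ... ∧ dg_d` with all
`g_i` in the ring. -/
def NoPole {d : ℕ} (V D : PVar ι) (ω : Form (K V) d) : Prop :=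
  ∀ O : ValuationSubring (K V), IsDiscreteValuationRing O → Dominates V D O →
    ∃ (m : ℕ) (f : Fin m → K V) (g : Fin m → Fin d → K V), (∀ k, f k ∈ O) ∧
      (∀ k i, g k i ∈ O) ∧ ω = ∑ k, f k • dW (g k)

/-- `τ` generates the maximal ideal of the local ring of `V` along `C`. -/
def IsLocalEq (V C : PVar ι) (τ : K V) : Prop :=
  τ ≠ 0 ∧ SpecTo V (pt C) τ 0 ∧
    ∀ f : K V, SpecTo V (pt C) f 0 → ∃ (h : K V) (a : Fr C), SpecTo V (pt C) h a ∧ f = h * τ

/-- `ω` has at most a simple pole along `C`, with residue `ρ`: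
`ω = ∑ f_k (dτ/τ) ∧ dg_{k1} ∧ ... ∧ dg_{kd}` and `ρ = ∑ f_k|_C dg_{k1}|_C ∧ ... ∧ dg_{kd}|_C`. -/
def HasRes {d : ℕ} (V C : PVar ι) (ω : Form (K V) (d + 1)) (ρ : Form (K C) d) : Prop :=
  ∃ (τ : K V), IsLocalEq V C τ ∧
    ∃ (m : ℕ) (f : Fin m → K V) (g : Fin m → Fin d → K V) (f' : Fin m → K C)
      (g' : Fin m → Fin d → K C),
      (∀ k, SpecTo V (pt C) (f k) (val (f' k))) ∧
      (∀ k i, SpecTo V (pt C) (g k i) (val (g' k i))) ∧
      ω = ∑ k, (f k * τ⁻¹) • dW (Fin.cons τ (g k) : Fin (d + 1) → K V) ∧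
      ρ = ∑ k, f' k • dW (g' k)

/-! ## Real geometry -/

/-- `g` is a system of real local coordinates of `V` at the real point `x`; in particular `x` is a
smooth point if `d` is the dimension of `V`. -/
def IsFrame (V : PVar ι) (d : ℕ) (x : ι → ℝ) (g : Fin d → K V) : Prop :=
  ∃ a : Fin d → ℝ, (∀ i, RVal V x (g i) (a i)) ∧
    ∀ f : K V, Val V x f 0 → ∃ h : Fin d → K V, (∀ i, ∃ b, Val V x (h i) b) ∧
      f = ∑ i, h i * (g i - algebraMap ℂ (K V) ((a i : ℝ) : ℂ))

/-- `ω` is a real form that is regular and nonzero at `x` (a local volume form). -/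
def IsVol (V : PVar ι) (d : ℕ) (x : ι → ℝ) (ω : Form (K V) d) : Prop :=
  ∃ (g : Fin d → K V) (f : K V) (a : ℝ), IsFrame V d x g ∧ RVal V x f a ∧ a ≠ 0 ∧ ω = f • dW g

/-- `V` has dimension `d`, `P` is a nonempty closed semialgebraic subset of the real points of
`V`, the closure of its interior, the interior consists of smooth points, and `σ` is an
orientation of the interior: it gives a sign to each real form which is regular and nonzero at a
point of the interior, compatible with multiplication with real functions and locally constant. -/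
structure Basic (V : PVar ι) (d : ℕ) (P : Set (ι → ℝ)) (σ : (ι → ℝ) → Form (K V) d → ℤ) :
    Prop where
  dim : Algebra.trdeg ℂ (K V) = d
  nonempty : P.Nonempty
  sub : P ⊆ V.RP
  cone : ∀ x ∈ P, ∀ c : ℝ, c ≠ 0 → c • x ∈ P
  semialg : Semialg P
  clo : clo (pos V P) = P
  smooth : ∀ x ∈ pos V P, ∃ g, IsFrame V d x g
  o_val : ∀ x ∈ pos V P, ∀ ω, IsVol V d x ω → σ x ω = 1 ∨ σ x ω = -1
  o_mul : ∀ x ∈ pos V P, ∀ ω, IsVol V d x ω → ∀ (f : K V) (a : ℝ), RVal V x f a → a ≠ 0 →
    σ x (f • ω) = (SignType.sign a : ℤ) * σ x ω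
  o_loc : ∀ x ∈ pos V P, ∀ ω, IsVol V d x ω → ∀ᶠ y in 𝓝[pos V P] x, σ y ω = σ x ω
  o_proj : ∀ x ∈ pos V P, ∀ ω, IsVol V d x ω → ∀ c : ℝ, c ≠ 0 → σ (c • x) ω = σ x ω

/-- `σ'` is the orientation of the boundary component `C` induced by `σ`. -/
def Induced {d : ℕ} (V : PVar ι) (P : Set (ι → ℝ)) (C : PVar ι)
    (σ : (ι → ℝ) → Form (K V) (d + 1) → ℤ) (σ' : (ι → ℝ) → Form (K C) d → ℤ) : Prop :=
  ∀ y ∈ pos C (bd P C), ∀ (τ : K V) (g : Fin d → K V) (g' : Fin d → K C),
    SpecTo V (pt C) τ 0 → (∀ i, SpecTo V (pt C) (g i) (val (g' i))) →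
    IsFrame V (d + 1) y (Fin.cons τ g : Fin (d + 1) → K V) → IsFrame C d y g' →
    ∀ᶠ x in 𝓝[pos V P] y, ∀ b : ℝ, RVal V x τ b →
      (0 < b → σ x (dW (Fin.cons τ g : Fin (d + 1) → K V)) = σ' y (dW g')) ∧
      (b < 0 → σ x (dW (Fin.cons τ g : Fin (d + 1) → K V)) = - σ' y (dW g'))

/-- `ω` is the canonical form of the positive geometry `(V, P)` with orientation `σ`. -/
def IsCanon : (d : ℕ) → (V : PVar ι) → (P : Set (ι → ℝ)) →
    (σ : (ι → ℝ) → Form (K V) d → ℤ) → Form (K V) d → Prop
  | 0, V, P, σ, ω => Basic V 0 P σ ∧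
      (ω = dW (Fin.elim0 : Fin 0 → K V) ∨ ω = - dW (Fin.elim0 : Fin 0 → K V)) ∧
      ∀ x ∈ P, σ x ω = 1
  | d + 1, V, P, σ, ω => Basic V (d + 1) P σ ∧
      (ω ≠ 0 ∧
        (∀ C : PVar ι, IsBd V P C → IsDVRAlong V C ∧
          ∃ (σ' : (ι → ℝ) → Form (K C) d → ℤ) (ρ : Form (K C) d), Induced V P C σ σ' ∧
            HasRes V C ω ρ ∧ IsCanon d C (bd P C) σ' ρ) ∧
        (∀ D : PVar ι, V.I ≤ D.I → Algebra.trdeg ℂ (K D) = d → ¬ IsBd V P D → NoPole V D ω)) ∧
      ∀ ω' : Form (K V) (d + 1), (ω' ≠ 0 ∧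
        (∀ C : PVar ι, IsBd V P C → IsDVRAlong V C ∧
          ∃ (σ' : (ι → ℝ) → Form (K C) d → ℤ) (ρ : Form (K C) d), Induced V P C σ σ' ∧
            HasRes V C ω' ρ ∧ IsCanon d C (bd P C) σ' ρ) ∧
        (∀ D : PVar ι, V.I ≤ D.I → Algebra.trdeg ℂ (K D) = d → ¬ IsBd V P D →
          NoPole V D ω')) →
        ω' = ω

/-- `(V, P)` with the orientation `σ` is a positive geometry of dimension `d`. -/
def IsPositiveGeometry (d : ℕ) (V : PVar ι) (P : Set (ι → ℝ))
    (σ : (ι → ℝ) → Form (K V) d → ℤ) : Prop :=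
  ∃ ω : Form (K V) d, IsCanon d V P σ ω

end PGeo
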